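import Pool.Agent.Lib.MP_688fd0_co.TF.Iface5

/-!
# Theorem F, statements of the parts HUB1, HUB2, HUB3 of module HUB (5.4)
-/

namespace Pool.Agent.Lib.MP_688fd0_co.TF

open Pool.Agent.Lib.MP_688fd0_co.TE

universe u

section defs

variable {G : Type u} [Group G] [Fintype G] [DecidableEq G] {c : Ctx G} {N : ℕ} (g : Gad c N)

/-- The conclusions of (5.6), (5.7) for the class `i`. -/
structure Gad.Ell {m : ℕ} (lv : G → ZMod m) (u v : G → ℝ) (i : ZMod m) (ell : G → ℝ) : Prop where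
  nn : ∀ z, 0 ≤ ell z
  sum : ∑ z, ell z ≤ 2 * m * c.X ^ 20 * g.bc lv u v i
  uv : ∀ z z', oddW c.B 7 (z⁻¹ * z') →
    |g.Uh lv u i z - g.Vh lv v i z'| ≤ 2 * ell z + 2 * ell z'
  a1 : ∑ x, ind (g.RR x ∧ lv x = i) * ∑ z, UM c.B x z * |u x - g.Uh lv u i z| ≤
    c.X ^ 22 * g.bc lv u v i
  a2 : ∑ y, ind (g.CC y ∧ lv y = i + 1) * ∑ z, UM c.B y z * |v y - g.Vh lv v i z| ≤
    c.X ^ 22 * g.bc lv u v i

end defs

/-- HUB1: (5.6), (5.7). -/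
def HUB1F_S : Prop :=
  ∀ (G : Type u) [Group G] [Fintype G] [DecidableEq G] (c : Ctx G) (N : ℕ) (g : Gad c N) (m : ℕ)
    [NeZero m] (lv : G → ZMod m), c.mOK m → g.P0 lv → g.e2 lv → ∀ (u v : G → ℝ) (i : ZMod m),
    ∃ ell : G → ℝ, g.Ell lv u v i ell

/-- HUB2: (5.9). -/
def HUB2F_S : Prop :=
  ∀ (G : Type u) [Group G] [Fintype G] [DecidableEq G] (c : Ctx G) (N : ℕ) (g : Gad c N) (m : ℕ)
    [NeZero m] (lv : G → ZMod m), c.mOK m → g.e2 lv → ∀ (u v : G → ℝ) (i : ZMod m)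
    (ell ell' : G → ℝ), g.Ell lv u v i ell → g.Ell lv u v (i + 1) ell' →
    ∑ z, |g.Uh lv u i z - g.Uh lv u (i + 1) z| ≤
      m * c.X ^ 24 * (g.bc lv u v i + g.b2 lv u v i + g.bc lv u v (i + 1)) ∧
    ∑ z, |g.Vh lv v i z - g.Vh lv v (i + 1) z| ≤
      m * c.X ^ 24 * (g.bc lv u v i + g.b2 lv u v i + g.bc lv u v (i + 1))

/-- HUB3: (5.8), summed. -/
def HUB3F_S : Prop :=
  ∀ (G : Type u) [Group G] [Fintype G] [DecidableEq G] (c : Ctx G) (N : ℕ) (g : Gad c N) (m : ℕ)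
    [NeZero m] (lv : G → ZMod m), c.mOK m → g.P1 lv → g.e2 lv → ∀ u v : G → ℝ, ∀ s,
    oddW (Lt c.B c.C true) 7 s →
    ∑ z, |g.Uh lv u 0 z - g.Vh lv v 0 (z * s)| ≤ c.X ^ 132 * m ^ 2 * g.bc lv u v 0

end Pool.Agent.Lib.MP_688fd0_co.TF
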