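import Pool.Agent.Lib.MP_688fd0_co.TF.Iface78
import Pool.Agent.Lib.MP_688fd0_co.TF.Iface5b

/-!
# Theorem F: names of TE for facts on the context, used by the ported files
-/

namespace Pool.Agent.Lib.MP_688fd0_co.TF

open Pool.Agent.Lib.MP_688fd0_co.TE

universe u

theorem Ctx.hk1 {G : Type*} [Group G] [Fintype G] [DecidableEq G] (c : Ctx G) : 1 ≤ c.k := by
  obtain ⟨r, hr⟩ := c.hodd
  omega

theorem Ctx.hlog {G : Type*} [Group G] [Fintype G] [DecidableEq G] (c : Ctx G) :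
    Real.log (Fintype.card G) ≤ c.k := by
  have h := c.hkr
  have h0 : 0 ≤ Real.log (Fintype.card G) := Real.log_natCast_nonneg _
  have h1 : (1 : ℝ) ≤ ((c.r0 : ℝ) + 1) ^ 2 := by
    have : (0 : ℝ) ≤ c.r0 := Nat.cast_nonneg _
    nlinarith
  nlinarith

/-- NUMC: the facts of NUMF in the form of `TE.NUM_S`. -/
def NUMC_S : Prop :=
  ∀ (G : Type u) [Group G] [Fintype G] [DecidableEq G] (c : Ctx G),
    (10 ^ 6 : ℝ) ≤ c.X ∧ (10 ^ 6 * c.k : ℝ) ^ 200 ≤ c.X ∧ (10 ^ 6 * c.T : ℝ) ^ 200 ≤ c.X ∧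
    True ∧ True ∧ 32 ≤ c.k ∧
    (∀ τ, 0 < c.q τ) ∧ 0 < c.b ∧ c.X ^ 200000 ≤ c.b ∧ c.b ≤ Fintype.card G ∧
    (∀ τ, c.q τ ≤ 1 / c.b) ∧
    (Fintype.card G : ℝ) ^ 20 ≤ c.X ^ (3 * c.T) ∧
    (∀ m : ℝ, c.X ≤ m → Real.exp (-m) * (Fintype.card G : ℝ) ^ 40 ≤ 1) ∧
    (Subgroup.closure (c.C : Set G) = ⊤)

theorem numc (h : NUMF_S.{u}) : NUMC_S.{u} := by
  intro G _ _ _ c
  obtain ⟨h1, h2, h3, h4, -, h6, h7, h8, h9, -, -, -, h13, h14, h15, h16⟩ := h G c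
  refine ⟨h1, h2, h3, trivial, trivial, by omega, h6, h7, h8, h9, h13, h14, ?_, h16⟩
  intro m hm
  refine le_trans ?_ (h15 m hm)
  refine mul_le_mul_of_nonneg_left ?_ (Real.exp_pos _).le
  refine pow_le_pow_right₀ ?_ (by norm_num)
  exact_mod_cast Fintype.card_pos

/-- PKSC: the facts of PKSF in the form of `TE.PKS_S`. -/
def PKSC_S : Prop :=
  ∀ (G : Type u) [Group G] [Fintype G] [DecidableEq G] (c : Ctx G),
    (∀ N M, c.PK N M → c.PK N M.transpose) ∧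
    (∀ N N' M M', c.PK N M → c.PK N' M' → c.PK (N + N') (M * M')) ∧
    (∀ N N' M, N ≤ N' → c.PK N M → c.PK N' M) ∧
    (∀ M, c.Bas M → c.PK 1 M) ∧
    c.PK 1 (UM c.B) ∧ (∀ τ, c.PK 1 (WM c.B c.C τ)) ∧
    (∀ N M, c.PK N M → SS M) ∧
    (∀ N M, c.TK N M → c.TK N M.transpose) ∧
    (∀ N N' M M', c.TK N M → c.PK N' M' → c.TK (N + N') (M * M') ∧ c.TK (N' + N) (M' * M)) ∧
    (∀ N N' M, N ≤ N' → c.TK N M → c.TK N' M) ∧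
    c.TK 1 (UM c.B) ∧
    (∀ τ par j j' g, 1 ≤ j → j ≤ j' → j' ≤ j + 6 → j' < 6 * c.ha par →
      c.TK 1 (c.hk τ par j j' g)) ∧
    (∀ τ par j j' g, 1 ≤ j → j ≤ j' → j' ≤ j + 6 → j' < 6 * c.ha par →
      c.TK 1 (c.hk τ par j j' g).transpose) ∧
    (∀ N, N ≤ 40 → ∃ (m : ℕ) (f : Fin m → Matrix G G ℝ), (m : ℝ) ≤ (Fintype.card G : ℝ) ^ 150 ∧
      (∀ i, c.TK N (f i)) ∧ ∀ M, c.TK N M → ∃ i, f i = M)

theorem pksc (h : PKSF_S.{u}) : PKSC_S.{u} := by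
  intro G _ _ _ c
  obtain ⟨h1, h2, h3, h4, h5, h6, h7, h8, h9, h10, h11⟩ := h G c
  exact ⟨h1, h2, h3, h4, h4 _ (Or.inl rfl), fun τ => h4 _ (Or.inr (Or.inl ⟨τ, rfl⟩)), h5, h6, h7,
    h8, h9, fun τ par j j' g a1 a2 a3 a4 => (h10 τ par j j' g a1 a2 a3 a4).1,
    fun τ par j j' g a1 a2 a3 a4 => (h10 τ par j j' g a1 a2 a3 a4).2, h11⟩

end Pool.Agent.Lib.MP_688fd0_co.TF
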