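import Pool.Agent.Lib.MP_688fd0_co.TE.Iface1

/-!
# Theorem F (degree `(log n) ^ C`): the context

Everything on probability, kernels and chapter 1 which does not depend on the context is used from
the folder TE.
-/

namespace Pool.Agent.Lib.MP_688fd0_co.TF

open Pool.Agent.Lib.MP_688fd0_co.TE

universe u

/-- The context of Theorem F. `k` is odd. -/
structure Ctx (G : Type*) [Group G] [Fintype G] [DecidableEq G] where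
  X : ℝ
  k : ℕ
  T : ℕ
  r0 : ℕ
  B : Finset G
  C : Finset G
  hT1 : 1 ≤ T
  hodd : Odd k
  hr1 : 2 ≤ r0
  hX : ((10 ^ 6 * T * k * (r0 + 1) : ℕ) : ℝ) ^ 200 ≤ X
  hkr : 100 * ((r0 : ℝ) + 1) ^ 2 * (Real.log (Fintype.card G) + 1) ≤ k
  hT : (Fintype.card G : ℝ) ^ 20 ≤ X ^ (3 * T)
  hr0 : (Fintype.card G : ℝ) ^ 8 ≤ (B.card : ℝ) ^ r0
  hBX : X ^ 200000 ≤ B.card
  hB : Sy B
  hC : Sy C
  hB1 : (1 : G) ∉ B
  hC1 : (1 : G) ∉ C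
  hCc : C.card ≤ k
  hCgen : Subgroup.closure (C : Set G) = ⊤
  hq : ∀ τ, 1 / (Fintype.card G : ℝ) ≤ qf B C τ k
  hcE : ∀ τ x y, evenW (Lt B C τ) 100 (x⁻¹ * y) →
    ∑ v, ((SM B C τ ^ k) x v - (SM B C τ ^ k) y v) ^ 2 ≤ qf B C τ k / 100
  hcO : ∀ τ x y, oddW (Lt B C τ) 100 (x⁻¹ * y) →
    ∑ v, ((SM B C τ ^ (k + 1)) x v - (SM B C τ ^ k) y v) ^ 2 ≤ qf B C τ k / 100
  hcM : ∀ τ x, ∀ t ∈ B, ∑ v, ((SM B C τ ^ k * UM B * WM B C τ) x v -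
    (SM B C τ ^ (k + 1)) x (v * t)) ^ 2 ≤ qf B C τ k / 100

/-! ### Statements of chapter 1 -/

/-- HARF: the `L2` closeness. -/
def HARF_S : Prop :=
  ∀ (G : Type u) [Group G] [Fintype G] [DecidableEq G] (B C : Finset G), Sy B → Sy C →
    ∀ (τ : Bool) (k : ℕ) (e : ℝ), 1 ≤ k → 0 ≤ e → e ≤ 1 / 10 ^ 8 →
    Real.log (Fintype.card G) / k ≤ e →
    (∀ s ∈ B, 1 - e ≤ r1 B C τ k s ∧ 1 - e ≤ r2 B C τ k s) →
    (τ = true → ∀ t ∈ C, 1 - e ≤ r2 B C τ k t) →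
    (∀ x y, evenW (Lt B C τ) 100 (x⁻¹ * y) →
      ∑ v, ((SM B C τ ^ k) x v - (SM B C τ ^ k) y v) ^ 2 ≤ qf B C τ k / 100) ∧
    (∀ x y, oddW (Lt B C τ) 100 (x⁻¹ * y) →
      ∑ v, ((SM B C τ ^ (k + 1)) x v - (SM B C τ ^ k) y v) ^ 2 ≤ qf B C τ k / 100) ∧
    (∀ x, ∀ t ∈ B, ∑ v, ((SM B C τ ^ k * UM B * WM B C τ) x v -
      (SM B C τ ^ (k + 1)) x (v * t)) ^ 2 ≤ qf B C τ k / 100)

/-- CHOICEF: the maximiser is large. -/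
def CHOICEF_S : Prop :=
  ∀ (G : Type u) [Group G] [Fintype G] [DecidableEq G] (A C : Finset G), Sy A → Sy C →
    ∀ (κ : ℝ) (k : ℕ), 1 ≤ k → 2 < κ → (Fintype.card G : ℝ) ^ 4 ≤ (A.card : ℝ) ^ (κ - 2) →
    ∃ B ⊆ A, Sy B ∧ (A.card : ℝ) ≤ (B.card : ℝ) ^ 2 ∧
      ∀ B' ⊆ A, Sy B' → (B'.card : ℝ) ^ κ * qf B' C false k * qf B' C true k ≤
        (B.card : ℝ) ^ κ * qf B C false k * qf B C true k

/-- COREF: existence of the context for degree at least `(log n) ^ (10 ^ 9)` (and `n ≥ 3`). -/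
def COREF_S : Prop :=
  ∀ (G : Type u) [Group G] [Fintype G] [DecidableEq G]
    (A : Finset G), 3 ≤ Fintype.card G → (∀ s ∈ A, s⁻¹ ∈ A) → (1 : G) ∉ A →
    Subgroup.closure (A : Set G) = ⊤ →
    Real.log (Fintype.card G) ^ (10 ^ 9) ≤ A.card →
    ∃ c : Ctx G, c.B ⊆ A ∧ c.C ⊆ A

end Pool.Agent.Lib.MP_688fd0_co.TF
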