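import Pool.Agent.Lib.MP_688fd0_co.TF.Defs

/-!
# Theorem F, statements of chapter 2 (kernels, merging, coupled link laws)
-/

namespace Pool.Agent.Lib.MP_688fd0_co.TF

open Pool.Agent.Lib.MP_688fd0_co.TE

universe u

section defs

variable {G : Type*} [Group G] [Fintype G] [DecidableEq G]

/-- The pattern `(β, w, β)^∞`: letter `p` (`p ≥ 1`). -/
noncomputable def cF (B C : Finset G) (τ : Bool) (p : ℕ) : Matrix G G ℝ :=
  if p % 3 = 2 then WM B C τ else UM B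

/-- `q_τ(j)`. -/
noncomputable def Ctx.qq (c : Ctx G) (τ : Bool) (j : ℕ) : ℝ := qf c.B c.C τ j

/-- `q_τ = q_τ(k)`. -/
noncomputable def Ctx.q (c : Ctx G) (τ : Bool) : ℝ := qf c.B c.C τ c.k

/-- `b = |B|`. -/
noncomputable def Ctx.b (c : Ctx G) : ℝ := (c.B.card : ℝ)

/-- `b1 = b ^ (1/4)`. -/
noncomputable def Ctx.b1 (c : Ctx G) : ℝ := c.b ^ (1 / 4 : ℝ)

/-- The pattern. -/
noncomputable def Ctx.cc (c : Ctx G) (τ : Bool) : ℕ → Matrix G G ℝ := cF c.B c.C τ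

/-- The kernel `K_{i,i+n}`. -/
noncomputable def Ctx.K (c : Ctx G) (τ : Bool) (i n : ℕ) : Matrix G G ℝ := Kn (c.cc τ) i n

/-- The length of a link (odd if `par = true`). -/
def Ctx.len (c : Ctx G) (par : Bool) : ℕ := if par then 6 * c.k + 3 else 6 * c.k

/-- The middle of a link. -/
def Ctx.mid (c : Ctx G) (par : Bool) : ℕ := if par then 3 * c.k + 3 else 3 * c.k

/-- Number of blocks of the first half. -/
def Ctx.ha (c : Ctx G) (par : Bool) : ℕ := if par then c.k + 1 else c.k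

/-- Admissible pairs: joined by a word of the right parity of length at most `N`. -/
def Ctx.adm (c : Ctx G) (τ par : Bool) (N : ℕ) (x y : G) : Prop :=
  if par then oddW (Lt c.B c.C τ) N (x⁻¹ * y) else evenW (Lt c.B c.C τ) N (x⁻¹ * y)

/-- The reweighting function. -/
noncomputable def rho (a b : ℝ) : ℝ := min (a / b) (b / a)

/-- Weight of the midpoint `v`. -/
noncomputable def Ctx.rh (c : Ctx G) (τ par : Bool) (x y v : G) : ℝ :=
  rho (c.K τ 0 (c.mid par) x v) (c.K τ (c.mid par) (c.len par - c.mid par) v y)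

/-- The kernels `cc` with the `m`-th one reweighted by a function of its end. -/
noncomputable def cpl (cc : ℕ → Matrix G G ℝ) (m : ℕ) (ρ : G → ℝ) : ℕ → Matrix G G ℝ :=
  fun p => if p = m then fun a b => cc p a b * ρ b else cc p

/-- The kernels of the coupled link from `x` to `y`. -/
noncomputable def Ctx.cx (c : Ctx G) (τ par : Bool) (x y : G) : ℕ → Matrix G G ℝ :=
  cpl (c.cc τ) (c.mid par) (c.rh τ par x y)

/-- Total mass of the reweighted walks. -/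
noncomputable def Ctx.FF (c : Ctx G) (τ par : Bool) (x y : G) : ℝ :=
  Kn (c.cx τ par x y) 0 (c.len par) x y

/-- The law of the link walk. -/
noncomputable def Ctx.WL (c : Ctx G) (τ par : Bool) (x y : G) (z : Fin (c.len par + 1) → G) : ℝ :=
  ind (z 0 = x ∧ z (Fin.last _) = y) *
    (∏ i : Fin (c.len par), c.cx τ par x y (i + 1) (z i.castSucc) (z i.succ)) / c.FF τ par x y

/-- Probability that the link walk from `x` to `y` has `z_j = v`, `z_{j+1} = v'`. -/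
noncomputable def Ctx.U (c : Ctx G) (τ par : Bool) (x y : G) (j : ℕ) (v v' : G) : ℝ :=
  Kn (c.cx τ par x y) 0 j x v * c.cx τ par x y (j + 1) v v' *
    Kn (c.cx τ par x y) (j + 1) (c.len par - 1 - j) v' y / c.FF τ par x y

/-- Probability that the link walk from `x` to `y` has `z_j = v`. -/
noncomputable def Ctx.U1 (c : Ctx G) (τ par : Bool) (x y : G) (j : ℕ) (v : G) : ℝ :=
  Kn (c.cx τ par x y) 0 j x v * Kn (c.cx τ par x y) j (c.len par - j) v y / c.FF τ par x y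

/-- Closed walk kernel: closed walks from `x` with `2 a` blocks, at `v` at the position `j` and at
`v * g` at the position `j'`, divided by `q(a)`. -/
noncomputable def Ctx.kp (c : Ctx G) (τ : Bool) (a j j' : ℕ) (g : G) : Matrix G G ℝ :=
  fun x v => c.K τ 0 j x v * c.K τ j' (6 * a - j') (v * g) x / c.qq τ a

/-- Bound for the entries of `K i n`. -/
noncomputable def Ctx.gs (c : Ctx G) (τ : Bool) (i n : ℕ) : ℝ :=
  if 10 ≤ n then c.qq τ ((n - 4) / 6)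
  else if n = 0 ∨ (n = 1 ∧ i % 3 = 1 ∧ τ = true) then 1 else 1 / c.b

/-- Bound for the sums of squares of the rows and columns of `K i n`. -/
noncomputable def Ctx.g2 (c : Ctx G) (τ : Bool) (i n : ℕ) : ℝ :=
  if 7 ≤ n then c.qq τ ((n - 4) / 3)
  else if n = 0 ∨ (n = 1 ∧ i % 3 = 1 ∧ τ = true) then 1 else 1 / c.b

/-- A window `(i, n)` without a full power of `1/b`. -/
def spw (τ : Bool) (p : ℕ × ℕ) : Prop := p.2 = 0 ∨ (p.2 = 1 ∧ p.1 % 3 = 1 ∧ τ = true)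

end defs

/-- KERF: the kernels. -/
def KERF_S : Prop :=
  ∀ (G : Type u) [Group G] [Fintype G] [DecidableEq G] (c : Ctx G) (τ : Bool),
    (∀ i n, DS (c.K τ i n) ∧ Inv (c.K τ i n)) ∧
    (∀ i m n, c.K τ i (m + n) = c.K τ i m * c.K τ (i + m) n) ∧
    (∀ i n, c.K τ (i + 3) n = c.K τ i n) ∧
    (∀ i i' n, (i + i' + n) % 3 = 0 → (c.K τ i n).transpose = c.K τ i' n) ∧
    (∀ a, c.K τ 0 (3 * a) = SM c.B c.C τ ^ a) ∧
    (∀ i n x y, c.K τ i n x y ≤ c.gs τ i n) ∧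
    (∀ i n x y, n ≠ 0 → (n ≠ 1 ∨ i % 3 ≠ 1 ∨ τ = false) → c.K τ i n x y ≤ 1 / c.b) ∧
    (∀ i n x, ∑ y, c.K τ i n x y ^ 2 ≤ c.g2 τ i n) ∧
    (∀ i n y, ∑ x, c.K τ i n x y ^ 2 ≤ c.g2 τ i n) ∧
    (∀ p, c.cc τ p = UM c.B ∨ c.cc τ p = WM c.B c.C τ) ∧
    (∀ p, DS (c.cc τ p) ∧ Inv (c.cc τ p)) ∧
    (∀ p, c.K τ p 1 = c.cc τ (p + 1))

/-- QQF: the numbers `q(j)`. -/
def QQF_S : Prop :=
  ∀ (G : Type u) [Group G] [Fintype G] [DecidableEq G] (c : Ctx G) (τ : Bool),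
    c.qq τ 0 = 1 ∧ (∀ j, 0 < c.qq τ j) ∧ (∀ j, 1 / (Fintype.card G : ℝ) ≤ c.qq τ j) ∧
    (∀ i j, i ≤ j → c.qq τ j ≤ c.qq τ i) ∧ (∀ j, 1 ≤ j → c.qq τ j ≤ 1 / c.b) ∧
    (∀ j, c.qq τ (j + 1) ^ 2 ≤ c.qq τ j * c.qq τ (j + 2)) ∧
    (∀ j, 1 ≤ j → c.qq τ (j - 1) ≤ Real.exp (Real.log (Fintype.card G) / j) * c.qq τ j) ∧
    (∀ i j, 1 ≤ i → 1 ≤ j → c.r0 ≤ i + j →
      c.qq τ i * c.qq τ j ≤ c.qq τ (i + j) / c.b ^ (1 / 2 : ℝ)) ∧
    (∀ j u, c.k ≤ j → j ≤ c.k + 1 → u ≤ 20 * (c.r0 + 1) → c.qq τ (j - u) ≤ 2 * c.qq τ j) ∧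
    (c.q τ ≤ 2 * c.qq τ (c.k + 1)) ∧ (∀ x y j, (SM c.B c.C τ ^ (2 * j)) x y ≤ c.qq τ j) ∧
    (∀ g, r1 c.B c.C τ c.k g ≤ 2 ∧ r2 c.B c.C τ c.k g ≤ 2 ∧
      r1 c.B c.C τ (c.k + 1) g ≤ 2 ∧ r2 c.B c.C τ (c.k + 1) g ≤ 2)

/-- NUMF: numerical facts. -/
def NUMF_S : Prop :=
  ∀ (G : Type u) [Group G] [Fintype G] [DecidableEq G] (c : Ctx G),
    (10 ^ 6 : ℝ) ≤ c.X ∧ (10 ^ 6 * c.k : ℝ) ^ 200 ≤ c.X ∧ (10 ^ 6 * c.T : ℝ) ^ 200 ≤ c.X ∧
    100 ≤ c.k ∧ Real.log (Fintype.card G) ≤ c.k ∧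
    (∀ τ, 0 < c.q τ) ∧ 0 < c.b ∧ c.X ^ 200000 ≤ c.b ∧ c.b ≤ Fintype.card G ∧
    0 < c.b1 ∧ c.X ^ 50000 ≤ c.b1 ∧ c.b1 ^ 4 = c.b ∧
    (∀ τ, c.q τ ≤ 1 / c.b) ∧
    (Fintype.card G : ℝ) ^ 20 ≤ c.X ^ (3 * c.T) ∧
    (∀ m : ℝ, c.X ≤ m → Real.exp (-m) * (Fintype.card G : ℝ) ^ 1000 ≤ 1) ∧
    Subgroup.closure (c.C : Set G) = ⊤

/-- MRG: products of window bounds. `ws` is a list of windows `(i, n)` with `r + 1` elements, at most
`(r + 2) / 2` of which are without a power of `1/b`. -/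
def MRG_S : Prop :=
  ∀ (G : Type u) [Group G] [Fintype G] [DecidableEq G] (c : Ctx G) (τ : Bool)
    (ws : List (ℕ × ℕ)) (r s : ℕ), ws.length = r + 1 → 1 ≤ r →
    (∀ l : List (ℕ × ℕ), l.Sublist ws → (∀ p ∈ l, spw τ p) → l.length ≤ s) → 2 * s ≤ r + 2 →
    ((6 * c.k ≤ (ws.map Prod.snd).sum + 8 * r + 40 →
      (ws.map (fun p => c.gs τ p.1 p.2)).prod ≤
        2 * c.q τ / c.b ^ (((r : ℝ) - s) / 2)) ∧
     (3 * c.k ≤ (ws.map Prod.snd).sum + 4 * r + 20 →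
      (ws.map (fun p => c.g2 τ p.1 p.2)).prod ≤
        2 * c.q τ / c.b ^ (((r : ℝ) - s) / 2)))

/-- KPF: the closed walk kernels. -/
def KPF_S : Prop :=
  ∀ (G : Type u) [Group G] [Fintype G] [DecidableEq G] (c : Ctx G) (τ par : Bool) (j j' : ℕ) (g : G),
    j ≤ j' → j' ≤ j + 6 → j' ≤ 6 * c.ha par →
    (∀ x v, 0 ≤ c.kp τ (c.ha par) j j' g x v) ∧ Inv (c.kp τ (c.ha par) j j' g) ∧
    (∀ x, ∑ v, c.kp τ (c.ha par) j j' g x v ≤ 2) ∧
    (∀ v, ∑ x, c.kp τ (c.ha par) j j' g x v ≤ 2) ∧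
    (∀ x, ∑ v, c.kp τ (c.ha par) j j 1 x v = 1) ∧
    (∀ v, ∑ x, c.kp τ (c.ha par) j j 1 x v = 1) ∧
    (1 ≤ j → j' < 6 * c.ha par → ∀ x v, c.kp τ (c.ha par) j j' g x v ≤ 4 / c.b ^ (1 / 2 : ℝ))

/-- CPLF: mass of the coupled link and domination by closed walks. -/
def CPLF_S : Prop :=
  ∀ (G : Type u) [Group G] [Fintype G] [DecidableEq G] (c : Ctx G) (τ par : Bool) (x y : G),
    c.adm τ par 100 x y →
    (8 / 10 : ℝ) * c.q τ ≤ c.FF τ par x y ∧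
    c.FF τ par x y = ∑ v, min (c.K τ 0 (c.mid par) x v)
      (c.K τ (c.mid par) (c.len par - c.mid par) v y) ^ 2 ∧
    (∀ j v v', j < c.len par → 0 ≤ c.U τ par x y j v v') ∧
    (∀ j, j < c.len par → ∑ v, ∑ v', c.U τ par x y j v v' = 1) ∧
    (∀ j v v', j < c.mid par → c.U τ par x y j v v' ≤
      5 / 4 * c.kp τ (c.ha par) j (j + 1) (v⁻¹ * v') x v * c.cc τ (j + 1) v v') ∧
    (∀ j v v', c.mid par ≤ j → j < c.len par → c.U τ par x y j v v' ≤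
      5 / 4 * c.kp τ c.k (c.len par - 1 - j) (c.len par - j) (v'⁻¹ * v) y v' *
        c.cc τ (j + 1) v v') ∧
    (∀ j v, j ≤ c.mid par → c.U1 τ par x y j v ≤ 5 / 4 * c.kp τ (c.ha par) j j 1 x v) ∧
    (∀ j v, c.mid par ≤ j → j ≤ c.len par →
      c.U1 τ par x y j v ≤ 5 / 4 * c.kp τ c.k (c.len par - j) (c.len par - j) 1 y v) ∧
    (∀ j v, 0 < j → j < c.len par → c.U1 τ par x y j v ≤ 4 / c.b ^ (1 / 2 : ℝ))

/-- WLKF: the coupled link law as a law on sequences. -/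
def WLKF_S : Prop :=
  ∀ (G : Type u) [Group G] [Fintype G] [DecidableEq G] (c : Ctx G) (τ par : Bool) (x y : G),
    c.adm τ par 100 x y →
    IsPr (c.WL τ par x y) ∧
    (∀ (j : ℕ) (hj : j < c.len par) (v v' : G),
      Pr (c.WL τ par x y) (fun z => z ⟨j, by omega⟩ = v ∧ z ⟨j + 1, by omega⟩ = v') =
        c.U τ par x y j v v') ∧
    (∀ (j : ℕ) (hj : j < c.len par + 1) (v : G),
      Pr (c.WL τ par x y) (fun z => z ⟨j, hj⟩ = v) = c.U1 τ par x y j v) ∧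
    (∀ (i j : ℕ) (hi : i < c.len par + 1) (hj : j < c.len par + 1), i < j →
      ¬ (i = 0 ∧ j = c.len par) →
      Pr (c.WL τ par x y) (fun z => z ⟨i, hi⟩ = z ⟨j, hj⟩) ≤ 4 / c.b1)

/-- TELEF: telescoping and invariance for the coupled link law. -/
def TELEF_S : Prop :=
  ∀ (G : Type u) [Group G] [Fintype G] [DecidableEq G] (c : Ctx G) (τ par : Bool) (x y : G),
    c.adm τ par 100 x y →
    (∀ F : ℕ → G → ℝ, F 0 x - F (c.len par) y = ∑ j ∈ Finset.range (c.len par), ∑ v, ∑ v',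
      c.U τ par x y j v v' * (F j v - F (j + 1) v')) ∧
    (∀ g j v v', c.U τ par (g * x) (g * y) j (g * v) (g * v') = c.U τ par x y j v v') ∧
    (∀ j v v', j < c.len par → c.U τ par x y j v v' ≠ 0 → c.cc τ (j + 1) v v' ≠ 0) ∧
    (∀ v v', c.U τ par x y 0 v v' ≠ 0 → v = x) ∧
    (∀ j v v', j + 1 = c.len par → c.U τ par x y j v v' ≠ 0 → v' = y)

/-- ADJF: the steps of a link walk with positive probability are letters. -/
def ADJF_S : Prop :=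
  ∀ (G : Type u) [Group G] [Fintype G] [DecidableEq G] (c : Ctx G) (τ par : Bool) (x y : G)
    (z : Fin (c.len par + 1) → G), c.WL τ par x y z ≠ 0 →
    z 0 = x ∧ z (Fin.last _) = y ∧
    (∀ i : Fin (c.len par), (z i.castSucc)⁻¹ * z i.succ ∈ Lt c.B c.C τ)

end Pool.Agent.Lib.MP_688fd0_co.TF
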