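import Pool.Agent.Lib.MP_688fd0_co.TE.Iface3
import Pool.Agent.Lib.MP_688fd0_co.TF.Iface2

/-!
# Theorem F, statements of chapter 3 (labelled walks with a reweighted mid slot)

The model `TE.LM` is used again (its field `jc` is a dummy here). The mid slot is the parameter
`jm`. In all the definitions of the first section `x` is the start and `y` the end of the walks.
-/

namespace Pool.Agent.Lib.MP_688fd0_co.TE

universe u v w

open Pool.Agent.Lib.MP_688fd0_co.TF (rho)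

section defs

variable {V : Type u} {Val : Type v} [Fintype V] [Fintype Val] [DecidableEq V] {a : ℕ}

/-- Mass from `x` to the entry vertex `u` of the slot `jm`. -/
noncomputable def LM.ka (M : LM V Val a) (jm : ℕ) (x u : V) : ℝ := M.fk 0 jm x u

/-- Mass from `x` to the exit vertex `v` of the slot `jm`. -/
noncomputable def LM.kb (M : LM V Val a) (jm : ℕ) (x v : V) : ℝ :=
  ∑ u, ∑ e, M.fk 0 jm x u * M.kap jm u e * ind (M.ex u e = v)

/-- Mass from the exit vertex `v` of the slot `jm` to `y`. -/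
noncomputable def LM.kc (M : LM V Val a) (jm : ℕ) (v y : V) : ℝ := M.fk (jm + 1) (a - 1 - jm) v y

/-- Weight of the site `s` at the slot `jm`. -/
noncomputable def LM.mw (M : LM V Val a) (jm : ℕ) (x y : V) (s : V × Val) : ℝ :=
  rho (M.kb jm x (M.ex s.1 s.2)) (M.kc jm (M.ex s.1 s.2) y) *
    ind (M.ka jm x s.1 ≤ 2 * M.kb jm x (M.ex s.1 s.2) ∧
      M.kb jm x (M.ex s.1 s.2) ≤ 2 * M.ka jm x s.1)

/-- Reweighting factor of the walk `z`. -/
noncomputable def LM.gm (M : LM V Val a) (jm : ℕ) (x y : V) (z : List (V × Val)) : ℝ :=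
  (z[jm]?).elim 0 (M.mw jm x y)

/-- Reweighted mass of the walk `z`. -/
noncomputable def LM.pr (M : LM V Val a) (jm : ℕ) (x y : V) (z : List (V × Val)) : ℝ :=
  M.pw 0 x z y * M.gm jm x y z

/-- Total reweighted mass. -/
noncomputable def LM.Fm (M : LM V Val a) (jm : ℕ) (x y : V) : ℝ := sumL a (M.pr jm x y)

/-- Labelled mass of the half walks from `x` to the entry vertex `u` of the slot `jm`. -/
noncomputable def LM.ZXm (M : LM V Val a) (jm : ℕ) (ω : Fld a V Val) (x u : V) : ℝ :=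
  sumL jm (fun l => M.pw 0 x l u * M.xw ω 0 l)

/-- Labelled mass of the half walks from the exit vertex `v` of the slot `jm` to `y`. -/
noncomputable def LM.ZYm (M : LM V Val a) (jm : ℕ) (ω : Fld a V Val) (v y : V) : ℝ :=
  sumL (a - 1 - jm) (fun l => M.pw (jm + 1) v l y * M.xw ω (jm + 1) l)

/-- The truncation conditions at the site `s` of the slot `jm`. -/
def LM.trunc (M : LM V Val a) (jm : ℕ) (lam : ℝ) (ω : Fld a V Val) (x y : V) (s : V × Val) : Prop :=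
  M.ZXm jm ω x s.1 ≤ lam * M.ka jm x s.1 ∧
    M.ZYm jm ω (M.ex s.1 s.2) y ≤ lam * M.kc jm (M.ex s.1 s.2) y

/-- `z` is good at `t`: clean, `x` and `y` are untouched at `t`, truncation conditions. -/
def LM.goodm (M : LM V Val a) (jm : ℕ) {T : ℕ} (ω : Fin T → Fld a V Val) (W : V → Prop) (lam : ℝ)
    (t : Fin T) (x y : V) (z : List (V × Val)) : Prop :=
  M.clean ω W t x y z ∧ ¬ M.tch (ω t) x ∧ ¬ M.tch (ω t) y ∧
    ∀ s, z[jm]? = some s → M.trunc jm lam (ω t) x y s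

/-- Labelled mass of the good walks. -/
noncomputable def LM.Zgm (M : LM V Val a) (jm : ℕ) {T : ℕ} (ω : Fin T → Fld a V Val) (W : V → Prop)
    (lam : ℝ) (t : Fin T) (x y : V) : ℝ :=
  sumL a (fun z => M.pr jm x y z * M.xw (ω t) 0 z * ind (M.goodm jm ω W lam t x y z))

/-- The transport law. -/
noncomputable def LM.Rm (M : LM V Val a) (jm : ℕ) {T : ℕ} (ω : Fin T → Fld a V Val) (W : V → Prop)
    (lam : ℝ) (t : Fin T) (x y : V) (z : List (V × Val)) : ℝ :=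
  M.pr jm x y z * M.xw (ω t) 0 z * ind (M.goodm jm ω W lam t x y z) / M.Zgm jm ω W lam t x y

/-- Function of the entry vertex of the slot `jm + 1`: labelled slot `jm` weighted with the mass
to `y`. -/
noncomputable def LM.SY (M : LM V Val a) (jm : ℕ) (ω : Fld a V Val) (y u' : V) : ℝ :=
  ∑ u, ∑ e, M.lw ω jm u e * M.kc jm (M.ex u e) y * M.C (jm + 1) (M.ex u e) u'

/-- Function of the entry vertex of the slot `j > jm`. -/
noncomputable def LM.FYm (M : LM V Val a) (jm : ℕ) (ω : Fld a V Val) (y : V) (j : ℕ) : V → ℝ :=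
  M.Fn ω (jm + 1) (M.SY jm ω y) (j - jm - 1)

/-- Loads, first half (`j ≤ j' ≤ jm`; `u` is the entry of the slot `j`, `w` the exit of `j'`). -/
noncomputable def LM.lx (M : LM V Val a) (jm : ℕ) (ω : Fld a V Val) (x : V) (j j' : ℕ) (u w : V) : ℝ :=
  M.Fn ω 0 (M.C 0 x) j u * M.Gn ω (M.kb jm x) (jm - j') (j' + 1) w

/-- Loads, second half (`jm < j ≤ j' < a`). -/
noncomputable def LM.ly (M : LM V Val a) (jm : ℕ) (ω : Fld a V Val) (y : V) (j j' : ℕ) (u w : V) : ℝ :=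
  M.FYm jm ω y j u * M.Gn ω (fun v => M.C a v y) (a - 1 - j') (j' + 1) w

/-- Loads, pair of slots `(jm, jm + 1)` (`v` is the exit of `jm`, `w` the exit of `jm + 1`). -/
noncomputable def LM.lz (M : LM V Val a) (jm : ℕ) (ω : Fld a V Val) (y : V) (v w : V) : ℝ :=
  M.kc jm v y * M.Gn ω (fun v => M.C a v y) (a - 2 - jm) (jm + 2) w

open scoped Classical in
/-- Bound of the loads. -/
noncomputable def LM.Eb (M : LM V Val a) (jm : ℕ) (X q : ℝ) (j j' : ℕ) : ℝ :=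
  if M.sp j ∧ (M.sp (j' + 1) ∨ j' = jm) then 10 * q else X * M.H0 * q

/-- Loads weighted by `φ` are at most `δ` times the standard bounds. -/
structure LM.LD (M : LM V Val a) (jm : ℕ) (X q : ℝ) (ω : Fld a V Val) (φ : V → ℝ) (δ : ℝ) : Prop where
  x1 : ∀ (j j' : ℕ) (u w : V), j ≤ j' → j' ≤ j + 1 → j' ≤ jm →
    ∑ x, φ x * M.lx jm ω x j j' u w ≤ δ * M.Eb jm X q j j'
  y1 : ∀ (j j' : ℕ) (u w : V), jm < j → j ≤ j' → j' ≤ j + 1 → j' < a →
    ∑ y, φ y * M.ly jm ω y j j' u w ≤ δ * M.Eb jm X q j j'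
  z1 : ∀ (v w : V), ∑ y, φ y * M.lz jm ω y v w ≤ δ * M.Eb jm X q jm (jm + 1)

/-- Sup bounds of the loads. -/
structure LM.LS (M : LM V Val a) (jm : ℕ) (X q b1 : ℝ) (ω : Fld a V Val) : Prop where
  x0 : ∀ (j j' : ℕ) (x u w : V), j ≤ j' → j' ≤ j + 1 → j' ≤ jm → M.lx jm ω x j j' u w ≤ 10 * q / b1
  y0 : ∀ (j j' : ℕ) (y u w : V), jm < j → j ≤ j' → j' ≤ j + 1 → j' < a →
    M.ly jm ω y j j' u w ≤ 10 * q / b1
  z0 : ∀ (y v w : V), M.lz jm ω y v w ≤ 10 * q / b1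
  x2 : ∀ (x w : V), M.Gn ω (M.kb jm x) jm 1 w ≤ X * M.H0 * q ∧
    (M.sp 1 → M.Gn ω (M.kb jm x) jm 1 w ≤ 10 * q)
  y2 : ∀ (y u : V), M.FYm jm ω y (a - 1) u ≤ X * M.H0 * q ∧
    (M.sp (a - 1) → M.FYm jm ω y (a - 1) u ≤ 10 * q)

/-- Second moment bounds: `tx`, `ty` for the truncations (sums of squares of the half walks), `sm`
for the full walks. -/
structure LM.TR (M : LM V Val a) (jm : ℕ) (q b1 lam0 : ℝ) : Prop where
  tx : ∀ x, ∑ u, sumL jm (fun l => M.pw 0 x l u * sumL jm (fun l' => M.pw 0 x l' u * M.pg l l')) ≤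
    lam0 * q
  ty : ∀ y, ∑ v, sumL (a - 1 - jm) (fun l => M.pw (jm + 1) v l y *
    sumL (a - 1 - jm) (fun l' => M.pw (jm + 1) v l' y * M.pg l l')) ≤ lam0 * q
  sm : ∀ x y z, z.length = a →
    sumL a (fun z' => M.pw 0 x z' y * (M.pg z z' - 1)) ≤ q / b1 ^ (1 / 2 : ℝ)

/-- Numerical assumptions. `n` is the number of vertices. -/
structure LM.NF (M : LM V Val a) (jm : ℕ) (n X q b1 lam0 : ℝ) (T : ℕ) : Prop where
  jma : jm + 1 < a
  n1 : 2 ≤ n
  X1 : 10 ^ 6 ≤ X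
  aX : (10 ^ 6 * (a + 1) : ℝ) ^ 20 ≤ X
  TX : (10 ^ 6 * T : ℝ) ^ 20 ≤ X
  T1 : 1 ≤ T
  q0 : 1 / n ≤ q
  q1 : q ≤ 1 / b1
  bX : X ^ 50000 ≤ b1
  bn : b1 ≤ n
  HX : M.H0 ≤ 2 * X ^ 3000
  nT : n ^ 20 ≤ X ^ (3 * T)
  en : ∀ m : ℝ, X ≤ m → Real.exp (-m) * n ^ 1000 ≤ 1
  ptX : 8 * (a : ℝ) ^ 2 * T * M.pt ≤ 1 / X ^ 4
  l1 : 1 ≤ lam0
  pos : ∀ j u e, M.P u e = 0 → M.kap j u e = 0
  kx : ∀ v, ∑ u, ∑ e, M.kap jm u e * ind (M.ex u e = v) ≤ 1
  tr : M.TR jm q b1 lam0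

/-- Hypotheses on the pair `x, y` and the forbidden set `W`. -/
structure LM.PF (M : LM V Val a) (jm : ℕ) (X q b1 : ℝ) (W : V → Prop) (x y : V) : Prop where
  ne : x ≠ y
  f0 : (3 / 4 : ℝ) * q ≤ M.Fm jm x y
  dis : sumL a (fun z => M.pr jm x y z * ind (∃ (i j : ℕ) (s s' : V × Val) (w : V), i ≤ j ∧
      z[i]? = some s ∧ z[j]? = some s' ∧ (s.1 = w ∨ M.ex s.1 s.2 = w) ∧
      ((i < j ∧ (s'.1 = w ∨ M.ex s'.1 s'.2 = w)) ∨ w = x ∨ w = y))) ≤ M.Fm jm x y / 40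
  wz : sumL a (fun z => M.pr jm x y z * ind (∃ (i : ℕ) (s : V × Val) (w : V), z[i]? = some s ∧
      (s.1 = w ∨ M.ex s.1 s.2 = w) ∧ W w)) ≤ M.Fm jm x y / 40
  hh : ∀ w, sumL a (fun z => M.pr jm x y z * ind (∃ (i : ℕ) (s : V × Val), z[i]? = some s ∧
      (s.1 = w ∨ M.ex s.1 s.2 = w))) ≤ X ^ 2 / b1 * M.Fm jm x y

end defs

end Pool.Agent.Lib.MP_688fd0_co.TE

namespace Pool.Agent.Lib.MP_688fd0_co.TF

open Pool.Agent.Lib.MP_688fd0_co.TE

universe u v w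

/-! ### Statements, abstract models -/

/-- RHOF: elementary facts on the reweighting. -/
def RHOF_S : Prop :=
  ∀ (V : Type u) (Val : Type v) [Fintype V] [Fintype Val] [DecidableEq V] (a : ℕ) (M : LM V Val a)
    (jm : ℕ), jm < a → ∀ (x y : V),
    (∀ s, 0 ≤ M.mw jm x y s ∧ M.mw jm x y s ≤ 1 ∧
      M.mw jm x y s * M.kc jm (M.ex s.1 s.2) y ≤ M.kb jm x (M.ex s.1 s.2) ∧
      M.mw jm x y s * M.kc jm (M.ex s.1 s.2) y ≤ 2 * M.ka jm x s.1 ∧
      M.mw jm x y s * M.ka jm x s.1 ≤ 2 * M.kc jm (M.ex s.1 s.2) y) ∧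
    (∀ z, 0 ≤ M.gm jm x y z ∧ M.gm jm x y z ≤ 1) ∧
    (∀ z, 0 ≤ M.pr jm x y z ∧ M.pr jm x y z ≤ M.pw 0 x z y) ∧
    (∀ F : List (V × Val) → ℝ, sumL a (fun z => M.pr jm x y z * F z) =
      ∑ s : V × Val, sumL jm (fun l => sumL (a - 1 - jm) (fun l' =>
        M.pw 0 x l s.1 * M.kap jm s.1 s.2 * M.pw (jm + 1) (M.ex s.1 s.2) l' y *
          M.mw jm x y s * F (l ++ s :: l'))))

/-- RLAWF: the transport law and its marginal bounds. -/
def RLAWF_S : Prop :=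
  ∀ (V : Type u) (Val : Type v) [Fintype V] [Fintype Val] [DecidableEq V] (a : ℕ) (M : LM V Val a)
    (jm : ℕ) (lam q : ℝ) (T : ℕ) (W : V → Prop) (ω : Fin T → Fld a V Val) (t : Fin T) (x y : V),
    jm < a → 0 < lam → 0 < q →
    (3 / 4 : ℝ) * q ≤ M.Fm jm x y →
    M.Fm jm x y / 4 ≤ M.Zgm jm ω W lam t x y →
    (∀ z, 0 ≤ M.Rm jm ω W lam t x y z) ∧
    sumL a (M.Rm jm ω W lam t x y) = 1 ∧
    (∀ z, z.length = a → M.Rm jm ω W lam t x y z ≠ 0 → M.goodm jm ω W lam t x y z ∧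
      M.pw 0 x z y ≠ 0 ∧ M.xw (ω t) 0 z ≠ 0) ∧
    (∀ (j : ℕ) (s : V × Val), j ≤ jm →
      sumL a (fun z => M.Rm jm ω W lam t x y z * ind (z[j]? = some s)) ≤
        12 * lam / q * M.lw (ω t) j s.1 s.2 * M.lx jm (ω t) x j j s.1 (M.ex s.1 s.2)) ∧
    (∀ (j : ℕ) (s : V × Val), jm < j → j < a →
      sumL a (fun z => M.Rm jm ω W lam t x y z * ind (z[j]? = some s)) ≤
        12 * lam / q * M.lw (ω t) j s.1 s.2 * M.ly jm (ω t) y j j s.1 (M.ex s.1 s.2)) ∧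
    (∀ (j : ℕ) (s s' : V × Val), j + 1 ≤ jm →
      sumL a (fun z => M.Rm jm ω W lam t x y z * ind (z[j]? = some s ∧ z[j + 1]? = some s')) ≤
        12 * lam / q * M.lw (ω t) j s.1 s.2 * M.C (j + 1) (M.ex s.1 s.2) s'.1 *
          M.lw (ω t) (j + 1) s'.1 s'.2 *
          M.lx jm (ω t) x j (j + 1) s.1 (M.ex s'.1 s'.2)) ∧
    (∀ (j : ℕ) (s s' : V × Val), jm < j → j + 1 < a →
      sumL a (fun z => M.Rm jm ω W lam t x y z * ind (z[j]? = some s ∧ z[j + 1]? = some s')) ≤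
        12 * lam / q * M.lw (ω t) j s.1 s.2 * M.C (j + 1) (M.ex s.1 s.2) s'.1 *
          M.lw (ω t) (j + 1) s'.1 s'.2 *
          M.ly jm (ω t) y j (j + 1) s.1 (M.ex s'.1 s'.2)) ∧
    (∀ (s s' : V × Val), jm + 1 < a →
      sumL a (fun z => M.Rm jm ω W lam t x y z * ind (z[jm]? = some s ∧ z[jm + 1]? = some s')) ≤
        12 * lam / q * M.lw (ω t) jm s.1 s.2 * M.C (jm + 1) (M.ex s.1 s.2) s'.1 *
          M.lw (ω t) (jm + 1) s'.1 s'.2 *
          M.lz jm (ω t) y (M.ex s.1 s.2) (M.ex s'.1 s'.2))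

/-- LOWAF: Chebyshev for the weights `g` and a set `AA` of walks. -/
def LOWAF_S : Prop :=
  ∀ (V : Type u) (Val : Type v) [Fintype V] [Fintype Val] [DecidableEq V] (a : ℕ) (M : LM V Val a)
    (x y : V) (g : List (V × Val) → ℝ) (AA : List (V × Val) → Prop) (d S : ℝ),
    (∀ j u e, M.P u e = 0 → M.kap j u e = 0) → (∀ z, 0 ≤ g z ∧ g z ≤ 1) → 0 < d → 0 ≤ S →
    (∀ z, z.length = a → sumL a (fun z' => M.pw 0 x z' y * (M.pg z z' - 1)) ≤ S) →
    Pr M.law (fun ω => sumL a (fun z => M.pw 0 x z y * g z * M.xw ω 0 z * ind (AA z)) ≤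
      sumL a (fun z => M.pw 0 x z y * g z * ind (AA z)) - d) ≤
      sumL a (fun z => M.pw 0 x z y * g z) * S / d ^ 2

/-- LOWBF: expected unclean weight. -/
def LOWBF_S : Prop :=
  ∀ (V : Type u) (Val : Type v) [Fintype V] [Fintype Val] [DecidableEq V] (a : ℕ) (M : LM V Val a)
    (x y : V) (g : List (V × Val) → ℝ), (∀ j u e, M.P u e = 0 → M.kap j u e = 0) → (∀ z, 0 ≤ g z) →
    Ex M.law (fun ω => sumL a (fun z => M.pw 0 x z y * g z * M.xw ω 0 z * ind (M.vdis z ∧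
      ∃ (i j : ℕ) (s : V × Val) (w u : V) (e : Val), z[i]? = some s ∧
        (s.1 = w ∨ M.ex s.1 s.2 = w) ∧ val ω j u = some e ∧ (u = w ∨ M.ex u e = w) ∧
        ¬ (j = i ∧ (u, e) = s)))) ≤
      2 * (a : ℝ) ^ 2 * M.pt * sumL a (fun z => M.pw 0 x z y * g z) ∧
    (∀ w, Pr M.law (fun ω => M.tch ω w) ≤ a * M.pt)

/-- LOWCF: expected truncated weight. -/
def LOWCF_S : Prop :=
  ∀ (V : Type u) (Val : Type v) [Fintype V] [Fintype Val] [DecidableEq V] (a : ℕ) (M : LM V Val a)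
    (jm : ℕ) (lam S : ℝ) (x y : V), jm < a → 0 < lam →
    (∀ j u e, M.P u e = 0 → M.kap j u e = 0) →
    (∀ v, ∑ u, ∑ e, M.kap jm u e * ind (M.ex u e = v) ≤ 1) →
    (∀ x, ∑ u, sumL jm (fun l => M.pw 0 x l u * sumL jm (fun l' => M.pw 0 x l' u * M.pg l l')) ≤
      S) →
    (∀ y, ∑ v, sumL (a - 1 - jm) (fun l => M.pw (jm + 1) v l y *
      sumL (a - 1 - jm) (fun l' => M.pw (jm + 1) v l' y * M.pg l l')) ≤ S) →
    Ex M.law (fun ω => sumL a (fun z => M.pr jm x y z * M.xw ω 0 z *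
      ind (∃ s, z[jm]? = some s ∧ lam * M.ka jm x s.1 < M.ZXm jm ω x s.1))) ≤ 2 * S / lam ∧
    Ex M.law (fun ω => sumL a (fun z => M.pr jm x y z * M.xw ω 0 z *
      ind (∃ s, z[jm]? = some s ∧
        lam * M.kc jm (M.ex s.1 s.2) y < M.ZYm jm ω (M.ex s.1 s.2) y))) ≤ 2 * S / lam

/-- LOWF: some colour is good. -/
def LOWF_S : Prop :=
  ∀ (V : Type u) (Val : Type v) [Fintype V] [Fintype Val] [DecidableEq V] (a : ℕ) (M : LM V Val a)
    (jm : ℕ) (X q b1 lam0 : ℝ) (T : ℕ) (W : V → Prop) (x y : V),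
    M.NF jm (Fintype.card V) X q b1 lam0 T → M.PF jm X q b1 W x y →
    Pr (piW (fun _ : Fin T => M.law))
      (fun ω => ∀ t, M.Zgm jm ω W (X ^ 5 * lam0) t x y < M.Fm jm x y / 4) ≤
      1 / (Fintype.card V : ℝ) ^ 14

end Pool.Agent.Lib.MP_688fd0_co.TF

namespace Pool.Agent.Lib.MP_688fd0_co.TF

open Pool.Agent.Lib.MP_688fd0_co.TE

universe u v w

/-- The good outcomes of the fields of `T` colours, for a family of models `M i` with common field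
law and pairs `PP i`, test functions `h`, and events `E i` of one colour. -/
structure StageF {V : Type u} {Val : Type v} [Fintype V] [Fintype Val] [DecidableEq V] {a : ℕ}
    {κ : Type} {ι : Type w} (M : κ → LM V Val a) (jm : ℕ) (X lam : ℝ) {T : ℕ} (W : κ → V → Prop)
    (PP : κ → V → V → Prop) (h : ι → V → ℝ) (S : ι → ℝ) (E : κ → Fld a V Val → Prop)
    (ω : Fin T → Fld a V Val) : Prop where
  pos : ∀ i t j u e, val (ω t) j u = some e → (M i).P u e ≠ 0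
  low : ∀ i x y, PP i x y → ∃ t, (M i).Fm jm x y / 4 ≤ (M i).Zgm jm ω (W i) lam t x y
  ev : ∀ i t, E i (ω t)
  tw : ∀ i j, ∑ t, (M j).tw (h i) (ω t) ≤ X * (M j).pt * S i

/-- STAGEF: almost all outcomes of the fields are good. -/
def STAGEF_S : Prop :=
  ∀ (V : Type u) (Val : Type v) [Fintype V] [Fintype Val] [DecidableEq V] (a : ℕ) (κ : Type)
    [Fintype κ] [Nonempty κ] (M : κ → LM V Val a) (jm : ℕ) (X q b1 lam0 : ℝ) (T : ℕ)
    (W : κ → V → Prop) (PP : κ → V → V → Prop) (i0 : κ) (E : κ → Fld a V Val → Prop),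
    (∀ i, (M i).P = (M i0).P) → (Fintype.card κ : ℝ) ≤ Fintype.card V →
    (∀ i, (M i).NF jm (Fintype.card V) X q b1 lam0 T) →
    (∀ i x y, PP i x y → (M i).PF jm X q b1 (W i) x y) →
    (∀ i, Pr (M i0).law (fun ω => ¬ E i ω) ≤ 1 / (Fintype.card V : ℝ) ^ 10) →
    ∀ (ι : Type w) [Fintype ι] (h : ι → V → ℝ) (S : ι → ℝ),
    (Fintype.card ι : ℝ) ≤ (Fintype.card V : ℝ) ^ 200 →
    (∀ i v, 0 ≤ h i v ∧ h i v ≤ X ^ 3 / b1) → (∀ i, ∑ v, h i v ≤ S i ∧ 1 ≤ S i) →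
    (∀ i, 1 / X ^ 4000 ≤ (M i).pt) →
    Pr (piW (fun _ : Fin T => (M i0).law))
      (fun ω => ¬ StageF M jm X (X ^ 5 * lam0) W PP h S E ω) ≤ 1 / (Fintype.card V : ℝ) ^ 2

/-! ### Statements, instances -/

section inst

variable {G : Type u} [Group G] [Fintype G] [DecidableEq G]

/-- `M` is an instance of the labelled walk model for `(c, τ)`: `d = 2` for the reservoir, `d = 1`
for the levels. Slot `j` has its entry vertex at the position `d j + 1`, its exit vertex at the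
position `d (j + 1)`. -/
structure Ctx.Inst (c : Ctx G) (τ : Bool) (d : ℕ) {Val : Type v} [Fintype Val] {a : ℕ}
    (M : LM G Val a) (jm : ℕ) : Prop where
  d1 : d = 1 ∨ d = 2
  len : d * a = 6 * c.k + 2
  mid : d * (jm + 1) = 3 * c.k + 3
  C : ∀ j u v, M.C j u v = c.cc τ (d * j + 1) u v
  kap : ∀ j u v, ∑ e, M.kap j u e * ind (M.ex u e = v) = c.K τ (d * j + 1) (d - 1) u v
  fk : ∀ i r x y, i + r ≤ a → M.fk i r x y = c.K τ (d * i) (d * r + 1) x y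
  sp : ∀ j, M.sp j ↔ (τ = true → (d * j + 1) % 3 ≠ 2)
  b : M.b = c.b
  H0 : M.H0 ≤ 2 * c.X ^ 3000
  pos : ∀ j u e, M.P u e = 0 → M.kap j u e = 0
  lev : d = 1 → ∀ u e, M.ex u e = u
  res : d = 2 → ∀ j u e, M.kap j u e ≠ 0 → ∃ s, M.ex u e = u * s ∧ s ∈ Lt c.B c.C τ

end inst

/-- The truncation constant `lam0`. -/
noncomputable def lam0F (τ : Bool) (d : ℕ) (X H0 : ℝ) : ℝ := if d = 2 ∧ τ = true then X * H0 else 4

/-- TRF: second moments for the instances. -/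
def TRF_S : Prop :=
  ∀ (G : Type u) [Group G] [Fintype G] [DecidableEq G] (c : Ctx G) (τ : Bool) (d : ℕ)
    (Val : Type v) [Fintype Val] (a : ℕ) (M : LM G Val a) (jm : ℕ), c.Inst τ d M jm →
    M.TR jm (c.q τ) c.b1 (lam0F τ d c.X M.H0)

/-- LDF: the loads of one colour, weighted by `φ` with small masses for the closed walk kernels. -/
def LDF_S : Prop :=
  ∀ (G : Type u) [Group G] [Fintype G] [DecidableEq G] (c : Ctx G) (τ : Bool) (d : ℕ)
    (Val : Type v) [Fintype Val] (a : ℕ) (M : LM G Val a) (jm : ℕ) (φ : G → ℝ) (δ : ℝ),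
    c.Inst τ d M jm → (∀ x, 0 ≤ φ x ∧ φ x ≤ 1) → 1 / c.X ^ 5000 ≤ δ →
    (∀ (par : Bool) (j j' : ℕ) (g v : G), 1 ≤ j → j ≤ j' → j' ≤ j + 6 → j' < 6 * c.ha par →
      ∑ x, φ x * c.kp τ (c.ha par) j j' g x v ≤ 2 * δ) →
    Pr M.law (fun ω => ¬ M.LD jm c.X (c.q τ) ω φ δ) ≤ 1 / (Fintype.card G : ℝ) ^ 14

/-- LSF: the sup bounds of the loads of one colour. -/
def LSF_S : Prop :=
  ∀ (G : Type u) [Group G] [Fintype G] [DecidableEq G] (c : Ctx G) (τ : Bool) (d : ℕ)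
    (Val : Type v) [Fintype Val] (a : ℕ) (M : LM G Val a) (jm : ℕ), c.Inst τ d M jm →
    Pr M.law (fun ω => ¬ M.LS jm c.X (c.q τ) c.b1 ω) ≤ 1 / (Fintype.card G : ℝ) ^ 14

end Pool.Agent.Lib.MP_688fd0_co.TF
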