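import Pool.Agent.Lib.MP_688fd0_co.TE.Iface4
import Pool.Agent.Lib.MP_688fd0_co.TF.Iface3

/-!
# Theorem F, statements of the modules of chapter 4 (instances, reservoir, gadgets)
-/

namespace Pool.Agent.Lib.MP_688fd0_co.TF

open Pool.Agent.Lib.MP_688fd0_co.TE

universe u v w

section defs

variable {G : Type u} [Group G] [Fintype G] [DecidableEq G]

/-- Nonnegative matrices with row sums and column sums at most one. -/
structure SS (M : Matrix G G ℝ) : Prop where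
  nn : ∀ x y, 0 ≤ M x y
  row : ∀ x, ∑ y, M x y ≤ 1
  col : ∀ y, ∑ x, M x y ≤ 1

/-- The halved closed walk kernel. -/
noncomputable def Ctx.hk (c : Ctx G) (τ par : Bool) (j j' : ℕ) (g : G) : Matrix G G ℝ :=
  fun x v => 1 / 2 * c.kp τ (c.ha par) j j' g x v

/-- Basic kernels. -/
def Ctx.Bas (c : Ctx G) (M : Matrix G G ℝ) : Prop :=
  M = UM c.B ∨ (∃ τ, M = WM c.B c.C τ) ∨
    (∃ (τ par : Bool) (j j' : ℕ) (g : G), j ≤ j' ∧ j' ≤ j + 6 ∧ j' ≤ 6 * c.ha par ∧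
      (M = c.hk τ par j j' g ∨ M = (c.hk τ par j j' g).transpose))

/-- Products of at most `N` basic kernels. -/
def Ctx.PK (c : Ctx G) (N : ℕ) (M : Matrix G G ℝ) : Prop :=
  ∃ l : List (Matrix G G ℝ), l.length ≤ N ∧ (∀ p ∈ l, c.Bas p) ∧ M = l.prod

/-- Test kernels: products of at most `N` basic kernels with entries at most `1/b1`. -/
def Ctx.TK (c : Ctx G) (N : ℕ) (M : Matrix G G ℝ) : Prop :=
  c.PK N M ∧ ∀ x y, M x y ≤ 1 / c.b1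

/-- The set `W` is light for all test kernels. -/
def Ctx.Light (c : Ctx G) (N : ℕ) (W : G → Prop) (δ : ℝ) : Prop :=
  ∀ M, c.TK N M → ∀ y, ∑ x, ind (W x) * M y x ≤ δ

/-- Label densities. -/
noncomputable def Ctx.ζ (c : Ctx G) (τ : Bool) : ℝ := if τ then 1 / c.X ^ 3000 else 1 / c.X ^ 400

/-- Load constants `Λ_τ`. -/
noncomputable def Ctx.Lam (c : Ctx G) (τ : Bool) : ℝ := if τ then c.X ^ 9010 else c.X ^ 410

/-- Densities of gadget vertices. -/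
noncomputable def Ctx.del (c : Ctx G) (τ : Bool) : ℝ :=
  if τ then 1 / c.X ^ 2990 else 1 / c.X ^ 390

/-- The mid slot of the reservoir model. -/
def Ctx.jr (c : Ctx G) : ℕ := (3 * c.k + 1) / 2

/-- The mid slot of the level model. -/
def Ctx.jl (c : Ctx G) : ℕ := 3 * c.k + 2

/-- `M` is the model RES(τ) with density `ζ`. -/
structure Ctx.IsRes (c : Ctx G) (τ : Bool) (ζ : ℝ) (M : LM G G (3 * c.k + 1)) : Prop where
  P : ∀ u t, M.P u t = ζ * WM c.B c.C τ 1 t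
  ex : ∀ u t, M.ex u t = u * t
  kap : ∀ j u t, M.kap j u t = c.cc τ (2 * j + 2) 1 t
  H0 : M.H0 = 2 / ζ
  pt : M.pt = 2 * ζ
  inst : c.Inst τ 2 M c.jr

/-- `M` is the model LEV(τ,i) with activity `ρ` and `m` levels. Slot `j` is position `j+1`. -/
structure Ctx.IsLev (c : Ctx G) (τ : Bool) (ρ : ℝ) (m : ℕ) [NeZero m] (i : ZMod m)
    (M : LM G (ZMod m) (6 * c.k + 2)) : Prop where
  P : ∀ u l, M.P u l = ρ / m
  ex : ∀ u l, M.ex u l = u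
  kap : ∀ j u l, M.kap j u l = ind (l = if Even j then i + 1 else i)
  H0 : M.H0 = m / ρ
  pt : M.pt = ρ
  inst : c.Inst τ 1 M c.jl

/-- The reservoir: R-edges and laws on R-links. -/
structure Resv (c : Ctx G) (N : ℕ) where
  E : Bool → Finset (G × G)
  Rl : Bool → G → G → (Fin (3 * c.k + 1) → G × G) → ℝ
  lett : ∀ τ, ∀ e ∈ E τ, e.1⁻¹ * e.2 ∈ Lt c.B c.C τ
  disj : ∀ τ τ' e e', e ∈ E τ → e' ∈ E τ' → (τ, e) ≠ (τ', e') →
    e.1 ≠ e'.1 ∧ e.1 ≠ e'.2 ∧ e.2 ≠ e'.1 ∧ e.2 ≠ e'.2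
  light : ∀ τ M, c.TK N M → ∀ y, ∑ e ∈ E τ, (M y e.1 + M y e.2) ≤ c.X * (2 * c.ζ τ)
  law : ∀ τ x y, x ≠ y → c.adm τ true 9 x y → IsPr (Rl τ x y)
  supp : ∀ τ x y, x ≠ y → c.adm τ true 9 x y → ∀ z, Rl τ x y z ≠ 0 →
    (∀ j, z j ∈ E τ) ∧ Function.Injective z ∧
    (∀ j, (z j).1 ≠ x ∧ (z j).1 ≠ y ∧ (z j).2 ≠ x ∧ (z j).2 ≠ y) ∧
    (∀ j : Fin (3 * c.k + 1), (j : ℕ) = 0 → x⁻¹ * (z j).1 ∈ Lt c.B c.C τ) ∧
    (∀ j j' : Fin (3 * c.k + 1), (j' : ℕ) = j + 1 → (z j).2⁻¹ * (z j').1 ∈ Lt c.B c.C τ) ∧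
    (∀ j : Fin (3 * c.k + 1), (j : ℕ) + 1 = 3 * c.k + 1 → (z j).2⁻¹ * y ∈ Lt c.B c.C τ)
  r2 : ∀ τ x y, x ≠ y → c.adm τ true 9 x y → ∀ e,
    Pr (Rl τ x y) (fun z => ∃ j, z j = e) ≤ c.X ^ 6010 / c.b1
  r3 : ∀ τ (π : G → G → ℝ) (p : ℝ), (∀ x y, 0 ≤ π x y) →
    (∀ x y, π x y ≠ 0 → x ≠ y ∧ c.adm τ true 9 x y) → (∀ x, ∑ y, π x y ≤ p) →
    (∀ y, ∑ x, π x y ≤ p) → ∀ e,
    ∑ x, ∑ y, π x y * Pr (Rl τ x y) (fun z => ∃ j, z j = e) ≤ p * c.Lam τ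

/-- Configurations of gadgets: cycle walk, odd rungs (rung `i+1` joins `w_{2i+2}` to `w_{2i+5}`),
last rung (joins `w_{6k}` to `w_{6k+2}`). -/
abbrev Ctx.Cfg (c : Ctx G) : Type u :=
  (Fin (c.len true + 1) → G) × (Fin (3 * c.k - 1) → Fin (c.len true + 1) → G) ×
    (Fin (c.len false + 1) → G)

/-- Vertex of the cycle walk with index `i` (junk value `1` if out of range). -/
def Ctx.cy (c : Ctx G) (γ : c.Cfg) (i : ℕ) : G :=
  if h : i < c.len true + 1 then γ.1 ⟨i, h⟩ else 1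

/-- The law of the configuration of the label `(r, r')`. -/
noncomputable def Ctx.Γ (c : Ctx G) (τ : Bool) (e : G × G) (γ : c.Cfg) : ℝ :=
  c.WL τ true e.2 e.1 γ.1 *
    (∏ i : Fin (3 * c.k - 1), c.WL τ true (c.cy γ (2 * i + 2)) (c.cy γ (2 * i + 5)) (γ.2.1 i)) *
    c.WL τ false (c.cy γ (6 * c.k)) (c.cy γ (6 * c.k + 2)) γ.2.2

/-- Positions of a gadget. -/
abbrev Ctx.Pos (c : Ctx G) : Type :=
  Fin (6 * c.k + 2) ⊕ (Fin (3 * c.k - 1) × Fin (6 * c.k + 2)) ⊕ Fin (6 * c.k - 1)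

/-- The vertex at a position: `inl i` is `w_{i+1}`. -/
def Ctx.vx (c : Ctx G) (γ : c.Cfg) : c.Pos → G
  | Sum.inl i => γ.1 ⟨i + 1, by have := i.2; simp only [Ctx.len, if_true]; omega⟩
  | Sum.inr (Sum.inl (i, p)) =>
    γ.2.1 i ⟨p + 1, by have := p.2; simp only [Ctx.len, if_true]; omega⟩
  | Sum.inr (Sum.inr p) =>
    γ.2.2 ⟨p + 1, by have := p.2; simp only [Ctx.len]; simp; omega⟩

/-- Reservoir with gadgets. -/
structure Gad (c : Ctx G) (N : ℕ) where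
  res : Resv c N
  Vs : Bool → G × G → Finset G
  i : Bool → G × G → G
  o : Bool → G × G → G
  Pa : Bool → G × G → List G
  Pn : Bool → G × G → List G
  ok : ∀ τ, ∀ e ∈ res.E τ, GadOK (Lt c.B c.C τ) e (Vs τ e) (i τ e) (o τ e) (Pa τ e) (Pn τ e)
  disj : ∀ τ τ' e e', e ∈ res.E τ → e' ∈ res.E τ' → (τ, e) ≠ (τ', e') →
    Disjoint (Vs τ e) (Vs τ' e')
  light : ∀ τ, c.Light N (fun w => ∃ e ∈ res.E τ, w ∈ Vs τ e) (c.del τ)

end defs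

/-! ### Statements -/

/-- PKSF: calculus of `PK`, `TK`. -/
def PKSF_S : Prop :=
  ∀ (G : Type u) [Group G] [Fintype G] [DecidableEq G] (c : Ctx G),
    (∀ N M, c.PK N M → c.PK N M.transpose) ∧
    (∀ N N' M M', c.PK N M → c.PK N' M' → c.PK (N + N') (M * M')) ∧
    (∀ N N' M, N ≤ N' → c.PK N M → c.PK N' M) ∧
    (∀ M, c.Bas M → c.PK 1 M) ∧
    (∀ N M, c.PK N M → SS M) ∧
    (∀ N M, c.TK N M → c.TK N M.transpose) ∧
    (∀ N N' M M', c.TK N M → c.PK N' M' → c.TK (N + N') (M * M') ∧ c.TK (N' + N) (M' * M)) ∧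
    (∀ N N' M, N ≤ N' → c.TK N M → c.TK N' M) ∧
    c.TK 1 (UM c.B) ∧
    (∀ τ par j j' g, 1 ≤ j → j ≤ j' → j' ≤ j + 6 → j' < 6 * c.ha par →
      c.TK 1 (c.hk τ par j j' g) ∧ c.TK 1 (c.hk τ par j j' g).transpose) ∧
    (∀ N, N ≤ 40 → ∃ (m : ℕ) (f : Fin m → Matrix G G ℝ), (m : ℝ) ≤ (Fintype.card G : ℝ) ^ 150 ∧
      (∀ i, c.TK N (f i)) ∧ ∀ M, c.TK N M → ∃ i, f i = M)

/-- RESMF: existence and properties of the model RES. -/
def RESMF_S : Prop :=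
  ∀ (G : Type u) [Group G] [Fintype G] [DecidableEq G] (c : Ctx G) (τ : Bool),
    ∃ M : LM G G (3 * c.k + 1), c.IsRes τ (c.ζ τ) M ∧
      M.NF c.jr (Fintype.card G) c.X (c.q τ) c.b1 (lam0F τ 2 c.X M.H0) c.T

/-- LEVMF: existence and properties of the models LEV. -/
def LEVMF_S : Prop :=
  ∀ (G : Type u) [Group G] [Fintype G] [DecidableEq G] (c : Ctx G) (τ : Bool) (m : ℕ) [NeZero m]
    (i : ZMod m), c.X ^ 1000 ≤ m → (m : ℝ) ≤ 2 * c.X ^ 1000 →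
    ∃ M : LM G (ZMod m) (6 * c.k + 2), c.IsLev τ (1 / c.X ^ 5) m i M ∧
      M.NF c.jl (Fintype.card G) c.X (c.q τ) c.b1 (lam0F τ 1 c.X M.H0) c.T

/-- PFF: the pair hypotheses for the instances. -/
def PFF_S : Prop :=
  ∀ (G : Type u) [Group G] [Fintype G] [DecidableEq G] (c : Ctx G) (τ : Bool) (d : ℕ)
    (Val : Type v) [Fintype Val] (a : ℕ) (M : LM G Val a) (jm : ℕ), c.Inst τ d M jm →
    ∀ W : G → Prop, c.Light 1 W (1 / c.X ^ 3) → ∀ x y, x ≠ y → c.adm τ true 100 x y →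
      M.PF jm c.X (c.q τ) c.b1 W x y

/-- LOADSF: the loads of the transport laws in the abstract model. `tc x y` is the colour used for
the pair. -/
def LOADSF_S : Prop :=
  ∀ (V : Type u) (Val : Type v) [Fintype V] [Fintype Val] [DecidableEq V] (a : ℕ)
    (M : LM V Val a) (jm : ℕ) (X q b1 lam E : ℝ) (T : ℕ) (W : V → Prop) (ω : Fin T → Fld a V Val)
    (tc : V → V → Fin T) (PP : V → V → Prop), jm < a → 10 ^ 6 ≤ X → 0 < q → 0 < b1 → 0 < lam →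
    (∀ j j', M.Eb jm X q j j' ≤ E * q) →
    (∀ t, M.LD jm X q (ω t) (fun _ => 1) 1) → (∀ t, M.LS jm X q b1 (ω t)) →
    (∀ x y, PP x y → (3 / 4 : ℝ) * q ≤ M.Fm jm x y ∧
      M.Fm jm x y / 4 ≤ M.Zgm jm ω W lam (tc x y) x y) →
    (∀ x y, PP x y → ∀ (j : ℕ) (s : V × Val), j < a →
      sumL a (fun z => M.Rm jm ω W lam (tc x y) x y z * ind (z[j]? = some s)) ≤
        120 * lam * M.H0 / b1) ∧
    (∀ (π : V → V → ℝ) (p : ℝ), (∀ x y, 0 ≤ π x y) → (∀ x y, π x y ≠ 0 → PP x y) →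
      (∀ x, ∑ y, π x y ≤ p) → (∀ y, ∑ x, π x y ≤ p) → ∀ (t : Fin T) (j : ℕ) (s : V × Val), j < a →
      ∑ x, ∑ y, π x y * ind (tc x y = t) *
        sumL a (fun z => M.Rm jm ω W lam t x y z * ind (z[j]? = some s)) ≤
        p * (12 * lam * E * M.H0))

/-- RESF: the reservoir exists. -/
def RESF_S : Prop :=
  ∀ (G : Type u) [Group G] [Fintype G] [DecidableEq G] (c : Ctx G) (N : ℕ), 1 ≤ N → N ≤ 40 →
    Nonempty (Resv c N)

/-- GLAWF: the law of gadget configurations. -/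
def GLAWF_S : Prop :=
  ∀ (G : Type u) [Group G] [Fintype G] [DecidableEq G] (c : Ctx G) (τ : Bool),
    (∀ e : G × G, e.1⁻¹ * e.2 ∈ Lt c.B c.C τ → IsPr (c.Γ τ e)) ∧
    (∀ p : c.Pos, ∃ (Np : Matrix G G ℝ) (sd : Bool), c.TK 2 Np ∧
      ∀ e : G × G, e.1⁻¹ * e.2 ∈ Lt c.B c.C τ → ∀ v,
        Pr (c.Γ τ e) (fun γ => c.vx γ p = v) ≤ 10 * Np (if sd then e.1 else e.2) v) ∧
    (∀ e : G × G, e.1⁻¹ * e.2 ∈ Lt c.B c.C τ → ∀ p p' : c.Pos, p ≠ p' →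
      Pr (c.Γ τ e) (fun γ => c.vx γ p = c.vx γ p') ≤ 2 * c.X / c.b1)

/-- ABSF: a configuration with distinct vertices is a gadget. -/
def ABSF_S : Prop :=
  ∀ (G : Type u) [Group G] [Fintype G] [DecidableEq G] (c : Ctx G) (τ : Bool) (e : G × G)
    (γ : c.Cfg), e.1⁻¹ * e.2 ∈ Lt c.B c.C τ → c.Γ τ e γ ≠ 0 → Function.Injective (c.vx γ) →
    (∀ p, c.vx γ p ≠ e.1 ∧ c.vx γ p ≠ e.2) →
    ∃ (Pa Pn : List G), GadOK (Lt c.B c.C τ) e (insert e.1 (insert e.2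
      (Finset.univ.image (c.vx γ)))) (c.cy γ 1) (c.cy γ 3) Pa Pn

/-- GADF: the gadgets exist. -/
def GADF_S : Prop :=
  ∀ (G : Type u) [Group G] [Fintype G] [DecidableEq G] (c : Ctx G) (N : ℕ), 1 ≤ N → N ≤ 38 →
    Nonempty (Gad c N)

end Pool.Agent.Lib.MP_688fd0_co.TF
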