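import Pool.Agent.Lib.MP_688fd0_co.TE.Iface5
import Pool.Agent.Lib.MP_688fd0_co.TF.Iface4

/-!
# Theorem F, statements of the modules of chapter 5 (levels and exactness)
-/

namespace Pool.Agent.Lib.MP_688fd0_co.TF

open Pool.Agent.Lib.MP_688fd0_co.TE

universe u v w

section defs

variable {G : Type u} [Group G] [Fintype G] [DecidableEq G] {c : Ctx G} {N : ℕ} (g : Gad c N)

/-- Vertices of gadgets. -/
def Gad.W (w : G) : Prop := ∃ τ, ∃ e ∈ g.res.E τ, w ∈ g.Vs τ e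

/-- Rows: vertices outside of the gadgets and exits. -/
def Gad.RR (x : G) : Prop := ¬ g.W x ∨ ∃ τ, ∃ e ∈ g.res.E τ, x = g.o τ e

/-- Columns: vertices outside of the gadgets and entries. -/
def Gad.CC (y : G) : Prop := ¬ g.W y ∨ ∃ τ, ∃ e ∈ g.res.E τ, y = g.i τ e

open scoped Classical in
/-- The level function defined by independent levels of vertices and of pairs. -/
noncomputable def Gad.lev {m : ℕ} (lam : G ⊕ (G × G) → ZMod m) (v : G) : ZMod m :=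
  if ¬ g.W v then lam (Sum.inl v)
  else if h : ∃ e, e ∈ g.res.E false ∧ (v = g.i false e ∨ v = g.o false e) then
    lam (Sum.inr h.choose)
  else 0

/-- Weight of the `B`-arc from `x` to `y`. -/
noncomputable def Gad.aB {m : ℕ} (lv : G → ZMod m) (x y : G) : ℝ :=
  (m : ℝ) / (2 * c.b) * ind (g.RR x ∧ g.CC y ∧ x⁻¹ * y ∈ c.B ∧ ¬ (g.W x ∧ g.W y) ∧
    (lv y = lv x + 1 ∨ lv y = lv x + 2))

/-- Weight of the `C`-arc from `x` to `y`. -/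
noncomputable def Gad.aC {m : ℕ} (lv : G → ZMod m) (x y : G) : ℝ :=
  1 / c.X ^ 100 / (c.C.card : ℝ) * ind (¬ g.W x ∧ ¬ g.W y ∧ x⁻¹ * y ∈ c.C ∧ lv x = 0 ∧ lv y = 1)

/-- Mean weight of `B`-arcs. -/
noncomputable def Gad.mB (x y : G) : ℝ :=
  ind (g.RR x ∧ g.CC y ∧ ¬ (g.W x ∧ g.W y)) * UM c.B x y

/-- Mean weight of `C`-arcs. -/
noncomputable def Gad.mC (m : ℕ) (x y : G) : ℝ :=
  ind (¬ g.W x ∧ ¬ g.W y) * (1 / c.X ^ 100 / (m : ℝ) ^ 2 * UM c.C x y)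

/-- `b_i`. -/
noncomputable def Gad.bc {m : ℕ} (lv : G → ZMod m) (u v : G → ℝ) (i : ZMod m) : ℝ :=
  ∑ x, ∑ y, ind (lv x = i ∧ lv y = i + 1) * (g.aB lv x y + g.aC lv x y) * |u x - v y|

/-- `b2_i`. -/
noncomputable def Gad.b2 {m : ℕ} (lv : G → ZMod m) (u v : G → ℝ) (i : ZMod m) : ℝ :=
  ∑ x, ∑ y, ind (lv x = i ∧ lv y = i + 2) * g.aB lv x y * |u x - v y|

/-- `bb`. -/
noncomputable def Gad.bb {m : ℕ} [NeZero m] (lv : G → ZMod m) (u v : G → ℝ) : ℝ :=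
  ∑ i : ZMod m, (g.bc lv u v i + g.b2 lv u v i)

/-- `ρ_x`. -/
noncomputable def Gad.rx {m : ℕ} (lv : G → ZMod m) (x : G) : ℝ :=
  1 - ∑ y, (g.aB lv x y + g.aC lv x y)

/-- `ρ'_y`. -/
noncomputable def Gad.ry {m : ℕ} (lv : G → ZMod m) (y : G) : ℝ :=
  1 - ∑ x, (g.aB lv x y + g.aC lv x y)

/-- `P_i(z)`. -/
noncomputable def Gad.Pr {m : ℕ} (lv : G → ZMod m) (i : ZMod m) (z : G) : ℝ :=
  ∑ x, UM c.B z x * ind (g.RR x ∧ lv x = i) * g.rx lv x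

/-- `P'_i(z)`. -/
noncomputable def Gad.Pc {m : ℕ} (lv : G → ZMod m) (i : ZMod m) (z : G) : ℝ :=
  ∑ y, UM c.B z y * ind (g.CC y ∧ lv y = i + 1) * g.ry lv y

/-- The parameter `m`. -/
def Ctx.mOK (c : Ctx G) (m : ℕ) : Prop := c.X ^ 1000 ≤ m ∧ (m : ℝ) ≤ 2 * c.X ^ 1000

/-- Poincare inequality (5.1), kind 0, class `i`. -/
def Gad.P0 {m : ℕ} (lv : G → ZMod m) : Prop :=
  ∀ (u v : G → ℝ) (i : ZMod m), ∃ LX LY : G → ℝ, (∀ x, 0 ≤ LX x) ∧ (∀ y, 0 ≤ LY y) ∧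
    (∑ x, LX x ≤ c.X ^ 20 * g.bc lv u v i) ∧ (∑ y, LY y ≤ c.X ^ 20 * g.bc lv u v i) ∧
    ∀ x y, g.RR x → g.CC y → lv x = i → lv y = i + 1 → x ≠ y → oddW c.B 9 (x⁻¹ * y) →
      |u x - v y| ≤ LX x + LY y

/-- Poincare inequality (5.1), kind 1, class 0. -/
def Gad.P1 {m : ℕ} (lv : G → ZMod m) : Prop :=
  ∀ (u v : G → ℝ), ∃ LX LY : G → ℝ, (∀ x, 0 ≤ LX x) ∧ (∀ y, 0 ≤ LY y) ∧
    (∑ x, LX x ≤ c.X ^ 30 * (m * c.X ^ 100) * g.bc lv u v 0) ∧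
    (∑ y, LY y ≤ c.X ^ 30 * (m * c.X ^ 100) * g.bc lv u v 0) ∧
    ∀ x y, g.RR x → g.CC y → lv x = 0 → lv y = 1 → x ≠ y → oddW (Lt c.B c.C true) 9 (x⁻¹ * y) →
      |u x - v y| ≤ LX x + LY y

/-- (5.2). -/
def Gad.e2 {m : ℕ} (lv : G → ZMod m) : Prop :=
  ∀ (z : G) (i : ZMod m),
    (1 / (2 * m : ℝ) ≤ ∑ x, UM c.B z x * ind (¬ g.W x ∧ lv x = i)) ∧
    (∑ x, UM c.B z x * ind (g.RR x ∧ lv x = i) ≤ 2 / m) ∧
    (∑ x, UM c.B z x * ind (g.CC x ∧ lv x = i) ≤ 2 / m)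

/-- (5.3). -/
def Gad.e3 {m : ℕ} (lv : G → ZMod m) : Prop :=
  (∀ x, g.RR x → |g.rx lv x| ≤ 2 / c.X ^ 100) ∧ (∀ y, g.CC y → |g.ry lv y| ≤ 2 / c.X ^ 100)

/-- (5.4). -/
def Gad.e4 {m : ℕ} (lv : G → ZMod m) : Prop :=
  (∃ P0 : G → ℝ, ∀ z i, |g.Pr lv i z - P0 z| ≤ 1 / c.X ^ 1090 ∧
    (i ≠ 0 → i ≠ -1 → i ≠ -2 → |g.Pr lv i z - P0 z| ≤ 1 / c.b ^ (1 / 8 : ℝ))) ∧
  (∃ P0 : G → ℝ, ∀ z i, |g.Pc lv i z - P0 z| ≤ 1 / c.X ^ 1090 ∧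
    (i ≠ 0 → i ≠ 1 → i ≠ -1 → |g.Pc lv i z - P0 z| ≤ 1 / c.b ^ (1 / 8 : ℝ)))

/-- (5.5). -/
def Gad.e5 {m : ℕ} (lv : G → ZMod m) : Prop :=
  ∀ (j : ℕ) (v v' : G), j < c.len true →
    |∑ x, ∑ y, (g.aB lv x y - g.mB x y) * c.U false true x y j v v'| ≤
      1 / c.X ^ 90 * UM c.B v v' ∧
    |∑ x, ∑ y, (g.aC lv x y - g.mC m x y) * c.U true true x y j v v'| ≤
      1 / c.X ^ 90 * UM c.B v v' + 1 / c.b ^ (1 / 8 : ℝ) * UM c.C v v'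

/-- All level properties. -/
structure Gad.LevOK {m : ℕ} (lv : G → ZMod m) : Prop where
  io : ∀ τ, ∀ e ∈ g.res.E τ, lv (g.i τ e) = lv (g.o τ e)
  one : ∀ e ∈ g.res.E true, lv (g.i true e) = 0
  p0 : g.P0 lv
  p1 : g.P1 lv
  e2 : g.e2 lv
  e3 : g.e3 lv
  e4 : g.e4 lv
  e5 : g.e5 lv

/-- Number (times `1/b`) of rows of level `i` around `z`. -/
noncomputable def Gad.nR {m : ℕ} (lv : G → ZMod m) (i : ZMod m) (z : G) : ℝ :=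
  ∑ x, UM c.B z x * ind (g.RR x ∧ lv x = i)

/-- Number (times `1/b`) of columns of level `i + 1` around `z`. -/
noncomputable def Gad.nC {m : ℕ} (lv : G → ZMod m) (i : ZMod m) (z : G) : ℝ :=
  ∑ x, UM c.B z x * ind (g.CC x ∧ lv x = i + 1)

/-- Hub average `U_i(z)`. -/
noncomputable def Gad.Uh {m : ℕ} (lv : G → ZMod m) (u : G → ℝ) (i : ZMod m) (z : G) : ℝ :=
  (∑ x, UM c.B z x * ind (g.RR x ∧ lv x = i) * u x) / g.nR lv i z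

/-- Hub average `V_i(z)`. -/
noncomputable def Gad.Vh {m : ℕ} (lv : G → ZMod m) (v : G → ℝ) (i : ZMod m) (z : G) : ℝ :=
  (∑ x, UM c.B z x * ind (g.CC x ∧ lv x = i + 1) * v x) / g.nC lv i z

/-- `U(z)`. -/
noncomputable def Gad.Um {m : ℕ} [NeZero m] (lv : G → ZMod m) (u : G → ℝ) (z : G) : ℝ :=
  (∑ i : ZMod m, g.Uh lv u i z) / m

/-- `V(z)`. -/
noncomputable def Gad.Vm {m : ℕ} [NeZero m] (lv : G → ZMod m) (v : G → ℝ) (z : G) : ℝ :=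
  (∑ i : ZMod m, g.Vh lv v i z) / m

/-- `F` averaged over `xB`. -/
noncomputable def Ctx.av (c : Ctx G) (F : G → ℝ) (x : G) : ℝ := ∑ z, UM c.B x z * F z

/-- The conclusions of 5.4 on the hub averages. -/
structure Gad.HubOK {m : ℕ} [NeZero m] (lv : G → ZMod m) (u v : G → ℝ) : Prop where
  h1 : ∑ x, ind (g.RR x) * ∑ z, UM c.B x z * |u x - g.Uh lv u (lv x) z| ≤
    c.X ^ 23 * g.bb lv u v
  h1' : ∑ y, ind (g.CC y) * ∑ z, UM c.B y z * |v y - g.Vh lv v (lv y - 1) z| ≤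
    c.X ^ 23 * g.bb lv u v
  h2 : ∀ i, ∑ z, |g.Uh lv u i z - g.Um lv u z| ≤ m * c.X ^ 26 * g.bb lv u v
  h2' : ∀ i, ∑ z, |g.Vh lv v i z - g.Vm lv v z| ≤ m * c.X ^ 26 * g.bb lv u v
  h3 : ∀ s, oddW c.B 7 s → ∑ z, |g.Um lv u z - g.Vm lv v (z * s)| ≤ c.X ^ 24 * g.bb lv u v
  h4 : ∀ s, oddW (Lt c.B c.C true) 7 s → ∑ z, |g.Um lv u z - g.Vm lv v (z * s)| ≤
    c.X ^ 134 * m ^ 2 * g.bb lv u v

/-- `Psi`. -/
noncomputable def Gad.Psi {m : ℕ} (lv : G → ZMod m) (u v : G → ℝ) : ℝ :=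
  ∑ x, ind (g.RR x) * g.rx lv x * u x - ∑ y, ind (g.CC y) * g.ry lv y * v y

/-- `E3`, the part with averaged functions. -/
noncomputable def Gad.E3 {m : ℕ} (lv : G → ZMod m) (F H : G → ℝ) : ℝ :=
  ∑ x, ind (g.RR x) * g.rx lv x * F x - ∑ y, ind (g.CC y) * g.ry lv y * H y

end defs

section deflev

variable {G : Type u} [Group G] [Fintype G] [DecidableEq G] {c : Ctx G} {N : ℕ} (g : Gad c N)
  {m : ℕ} [NeZero m]

/-- Good outcome of the fields of one colour. -/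
def Gad.LG (M : LM G (ZMod m) (6 * c.k + 2)) (q : ℝ) (ω : Fld (6 * c.k + 2) G (ZMod m)) : Prop :=
  M.LD c.jl c.X q ω (fun _ => 1) 1 ∧
  M.LD c.jl c.X q ω (fun x => ind (∃ e ∈ g.res.E true, x ∈ g.Vs true e)) (1 / c.X ^ 2990) ∧
  M.LS c.jl c.X q c.b1 ω

/-- The loads restricted to the rows of level `i` and the columns of level `i + 1`. -/
structure Gad.LL (lv : G → ZMod m) (M : LM G (ZMod m) (6 * c.k + 2)) (q : ℝ)
    (ω : Fld (6 * c.k + 2) G (ZMod m)) (i : ZMod m) : Prop where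
  x1 : ∀ (j j' : ℕ) (u w : G), j ≤ j' → j' ≤ j + 1 → j' ≤ c.jl →
    ∑ x, ind (g.RR x ∧ lv x = i ∧ ¬ M.tch ω x) * M.lx c.jl ω x j j' u w ≤
      c.X / m * M.Eb c.jl c.X q j j'
  y1 : ∀ (j j' : ℕ) (u w : G), c.jl < j → j ≤ j' → j' ≤ j + 1 → j' < 6 * c.k + 2 →
    ∑ y, ind (g.CC y ∧ lv y = i + 1 ∧ ¬ M.tch ω y) * M.ly c.jl ω y j j' u w ≤
      c.X / m * M.Eb c.jl c.X q j j'
  z1 : ∀ (v w : G), ∑ y, ind (g.CC y ∧ lv y = i + 1 ∧ ¬ M.tch ω y) * M.lz c.jl ω y v w ≤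
    c.X / m * M.Eb c.jl c.X q c.jl (c.jl + 1)

end deflev

/-! ### First values -/

section fo

variable {A : Type*} {T a : ℕ}

/-- `l` is the first value. -/
def FI (ω : Fin T → Fin a → Option A) (l : A) : Prop :=
  ∃ t j, ω t j = some l ∧ ∀ t' j', (t' < t ∨ (t' = t ∧ j' < j)) → ω t' j' = none

open scoped Classical in
/-- The first value. -/
noncomputable def fo (ω : Fin T → Fin a → Option A) : Option A :=
  if h : ∃ l, FI ω l then some h.choose else none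

/-- The level of `v` read off the fields. -/
noncomputable def fstv {V : Type u} {m : ℕ} (ω0 ω1 : Fin T → Fld a V (ZMod m))
    (d : V → ZMod m) (v : V) : ZMod m :=
  (fo (fun t j => ω0 t j v)).getD ((fo (fun t j => ω1 t j v)).getD (d v))

end fo

/-- The law of all fields and default levels. -/
noncomputable def lw4 {G : Type u} [Group G] [Fintype G] [DecidableEq G] (c : Ctx G) (m : ℕ)
    [NeZero m] :
    (Fin c.T → Fld (6 * c.k + 2) G (ZMod m)) × (Fin c.T → Fld (6 * c.k + 2) G (ZMod m)) ×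
      (G → ZMod m) × (G × G → ZMod m) → ℝ :=
  fun p =>
    piW (fun _ : Fin c.T => piW (fun _ : Fin (6 * c.k + 2) => piW (fun _ : G =>
      optW (fun _ : ZMod m => 1 / c.X ^ 5 / m)))) p.1 *
    piW (fun _ : Fin c.T => piW (fun _ : Fin (6 * c.k + 2) => piW (fun _ : G =>
      optW (fun _ : ZMod m => 1 / c.X ^ 5 / m)))) p.2.1 *
    unifW (G → ZMod m) p.2.2.1 * unifW (G × G → ZMod m) p.2.2.2


/-! ### Statements -/

/-- LVUNG: uniform levels given invariant data. `sh s` is a measure preserving shift. -/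
def LVUNG_S : Prop :=
  ∀ (Ω : Type v) [Fintype Ω] (I : Type u) [Fintype I] [DecidableEq I] (m : ℕ) [NeZero m]
    (μ : Ω → ℝ) (sh : (I → ZMod m) → Ω ≃ Ω) (f : Ω → I → ZMod m) (H : Ω → (I → ZMod m) → ℝ),
    (∀ s ω, μ (sh s ω) = μ ω) → (∀ s ω, f (sh s ω) = f ω + s) →
    (∀ s ω l, H (sh s ω) l = H ω l) →
    Ex μ (fun ω => H ω (f ω)) = Ex μ (fun ω => Ex (unifW (I → ZMod m)) (H ω))

/-- LLF: given good outcomes of the fields of a colour, the loads restricted to levels are small. -/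
def LLF_S : Prop :=
  ∀ (G : Type u) [Group G] [Fintype G] [DecidableEq G] (c : Ctx G) (N : ℕ) (g : Gad c N) (m : ℕ)
    [NeZero m] (M : Bool → ZMod m → LM G (ZMod m) (6 * c.k + 2)), 4 ≤ N → c.mOK m →
    (∀ τ i, c.IsLev τ (1 / c.X ^ 5) m i (M τ i)) →
    Pr (lw4 c m) (fun p => ∃ (τ : Bool) (i : ZMod m) (t : Fin c.T),
      g.LG (M τ i) (c.q τ) ((if τ then p.2.1 else p.1) t) ∧
      ¬ g.LL (g.lev (Sum.elim (fstv p.1 p.2.1 p.2.2.1) p.2.2.2)) (M τ i) (c.q τ)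
        ((if τ then p.2.1 else p.1) t) i) ≤ 1 / (Fintype.card G : ℝ) ^ 2

/-- PPDF: (5.1) from the good outcomes of the fields; `D0` = vertices active in earlier families. -/
def PPDF_S : Prop :=
  ∀ (G : Type u) [Group G] [Fintype G] [DecidableEq G] (c : Ctx G) (N : ℕ) (g : Gad c N) (m : ℕ)
    [NeZero m] (τ : Bool) (M : ZMod m → LM G (ZMod m) (6 * c.k + 2)) (lv : G → ZMod m)
    (ω : Fin c.T → Fld (6 * c.k + 2) G (ZMod m)) (D0 : G → Prop), 1 ≤ N → c.mOK m →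
    (∀ i, c.IsLev τ (1 / c.X ^ 5) m i (M i)) →
    (∀ i x y, x ≠ y → c.adm τ true 9 x y → (3 / 4 : ℝ) * c.q τ ≤ (M i).Fm c.jl x y ∧
      ∃ t, (M i).Fm c.jl x y / 4 ≤
        (M i).Zgm c.jl ω (fun w => g.W w ∨ D0 w) (c.X ^ 5 * 4) t x y) →
    (∀ i t, (M i).LS c.jl c.X (c.q τ) c.b1 (ω t)) →
    (∀ i t, g.LL lv (M i) (c.q τ) (ω t) i) →
    (∀ v, ¬ g.W v → ¬ D0 v → ∀ t j l, val (ω t) j v = some l →
      (∀ t' < t, ∀ j' l', val (ω t') j' v ≠ some l') →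
      (∀ j' l', val (ω t) j' v = some l' → j' = j) → lv v = l) →
    (∀ τ, ∀ e ∈ g.res.E τ, lv (g.i τ e) = lv (g.o τ e)) → g.e2 lv →
    (τ = false → g.P0 lv) ∧ (τ = true → g.P1 lv)

/-- REG2, REG3, REG4, REG5: the regularity events fail with small probability. -/
def REGF_S (prop : ∀ {G : Type u} [Group G] [Fintype G] [DecidableEq G] {c : Ctx G} {N : ℕ}
    (_ : Gad c N) {m : ℕ} (_ : G → ZMod m), Prop) : Prop :=
  ∀ (G : Type u) [Group G] [Fintype G] [DecidableEq G] (c : Ctx G) (N : ℕ) (g : Gad c N) (m : ℕ)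
    [NeZero m], 4 ≤ N → c.mOK m →
    Pr (unifW (G ⊕ (G × G) → ZMod m)) (fun lam => ¬ prop g (g.lev lam)) ≤
      1 / (Fintype.card G : ℝ) ^ 2

def REG2F_S : Prop := REGF_S.{u} (fun g => g.e2)
def REG3F_S : Prop := REGF_S.{u} (fun g => g.e3)
def REG4F_S : Prop := REGF_S.{u} (fun g => g.e4)
def REG5F_S : Prop := REGF_S.{u} (fun g => g.e5)

/-- LEVS: good levels exist. -/
def LEVSF_S : Prop :=
  ∀ (G : Type u) [Group G] [Fintype G] [DecidableEq G] (c : Ctx G) (N : ℕ) (g : Gad c N) (m : ℕ)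
    [NeZero m], 4 ≤ N → c.mOK m → ∃ lv : G → ZMod m, g.LevOK lv

/-- HUB: 5.4. -/
def HUBF_S : Prop :=
  ∀ (G : Type u) [Group G] [Fintype G] [DecidableEq G] (c : Ctx G) (N : ℕ) (g : Gad c N) (m : ℕ)
    [NeZero m] (lv : G → ZMod m), c.mOK m → g.LevOK lv → ∀ u v : G → ℝ, g.HubOK lv u v

/-- PSI1: `Psi = E1 + E2 + E3` and the bounds of `E1`, `E2`. -/
def PSI1F_S : Prop :=
  ∀ (G : Type u) [Group G] [Fintype G] [DecidableEq G] (c : Ctx G) (N : ℕ) (g : Gad c N) (m : ℕ)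
    [NeZero m] (lv : G → ZMod m), c.mOK m → g.LevOK lv → ∀ u v : G → ℝ, g.HubOK lv u v →
    |g.Psi lv u v - g.E3 lv (c.av (g.Um lv u)) (c.av (g.Vm lv v))| ≤
      1 / c.X ^ 50 * g.bb lv u v

/-- ETH: (5.11). -/
def ETHF_S : Prop :=
  ∀ (G : Type u) [Group G] [Fintype G] [DecidableEq G] (c : Ctx G) (τ : Bool) (U0 V0 : G → ℝ)
    (β θ' : ℝ) (θ : G → G → ℝ), 0 ≤ β → 0 ≤ θ' →
    (∀ s, oddW (Lt c.B c.C τ) 7 s → ∑ z, |U0 z - V0 (z * s)| ≤ β) →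
    (∀ x y, 0 ≤ θ x y) → (∀ x y, θ x y ≠ 0 → x⁻¹ * y ∈ Lt c.B c.C τ) →
    (∀ M, c.TK 3 M → ∀ y, ∑ x, (∑ y', θ x y') * M y x ≤ θ' ∧ ∑ x, (∑ y', θ y' x) * M y x ≤ θ') →
    ∑ x, ∑ y, θ x y * |c.av U0 x - c.av V0 y| ≤ c.X ^ 3 * θ' * β

/-- CEN: the centred part. -/
def CENF_S : Prop :=
  ∀ (G : Type u) [Group G] [Fintype G] [DecidableEq G] (c : Ctx G) (N : ℕ) (g : Gad c N) (m : ℕ)
    [NeZero m] (lv : G → ZMod m) (U0 V0 : G → ℝ) (β0 β1 : ℝ), 0 ≤ β0 → 0 ≤ β1 → g.e5 lv →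
    (∀ s, oddW c.B 7 s → ∑ z, |U0 z - V0 (z * s)| ≤ β0) →
    (∀ s, oddW (Lt c.B c.C true) 7 s → ∑ z, |U0 z - V0 (z * s)| ≤ β1) →
    |∑ x, ∑ y, (g.aB lv x y - g.mB x y + (g.aC lv x y - g.mC m x y)) *
      (c.av U0 x - c.av V0 y)| ≤ 1 / c.X ^ 80 * β0 + 1 / c.b ^ (1 / 10 : ℝ) * β1

/-- BRK: the remaining part of `E3`. -/
def BRKF_S : Prop :=
  ∀ (G : Type u) [Group G] [Fintype G] [DecidableEq G] (c : Ctx G) (N : ℕ) (g : Gad c N) (m : ℕ)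
    [NeZero m] (lv : G → ZMod m) (U0 V0 : G → ℝ) (β0 β1 : ℝ), 4 ≤ N → c.mOK m → 0 ≤ β0 → 0 ≤ β1 →
    (∀ s, oddW c.B 7 s → ∑ z, |U0 z - V0 (z * s)| ≤ β0) →
    (∀ s, oddW (Lt c.B c.C true) 7 s → ∑ z, |U0 z - V0 (z * s)| ≤ β1) →
    |g.E3 lv (c.av U0) (c.av V0) + ∑ x, ∑ y, (g.aB lv x y - g.mB x y +
      (g.aC lv x y - g.mC m x y)) * (c.av U0 x - c.av V0 y)| ≤
      1 / c.X ^ 300 * β0 + 1 / c.X ^ 2400 * β1

/-- PSI: the claim of 5.5. -/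
def PSIF_S : Prop :=
  ∀ (G : Type u) [Group G] [Fintype G] [DecidableEq G] (c : Ctx G) (N : ℕ) (g : Gad c N) (m : ℕ)
    [NeZero m] (lv : G → ZMod m), 4 ≤ N → c.mOK m → g.LevOK lv → ∀ u v : G → ℝ,
    |g.Psi lv u v| ≤ g.bb lv u v / 2

/-- HALL: the perfect matching `F` of rows and columns by arcs. -/
def HALLF_S : Prop :=
  ∀ (G : Type u) [Group G] [Fintype G] [DecidableEq G] (c : Ctx G) (N : ℕ) (g : Gad c N) (m : ℕ)
    [NeZero m] (lv : G → ZMod m), 4 ≤ N → c.mOK m → g.LevOK lv →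
    ∃ F : G → G, (∀ x, g.RR x → g.CC (F x) ∧ 0 < g.aB lv x (F x) + g.aC lv x (F x)) ∧
      (∀ x x', g.RR x → g.RR x' → F x = F x' → x = x') ∧
      (∀ y, g.CC y → ∃ x, g.RR x ∧ F x = y)

end Pool.Agent.Lib.MP_688fd0_co.TF
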