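import Pool.Agent.Lib.MP_688fd0_co.TE.Iface78
import Pool.Agent.Lib.MP_688fd0_co.TF.Iface5
import Pool.Agent.Lib.MP_688fd0_co.Listing

/-!
# Theorem F, chapters 6, 7, 8: the three probabilistic statements used by the deterministic part,
and the final statement

ISO1, ISO2: many pairs of available vertices. RND: one round of random choices. END: the
Hamiltonian cycle. No ports and no matching `F` occur here.
-/

namespace Pool.Agent.Lib.MP_688fd0_co.TF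

open Pool.Agent.Lib.MP_688fd0_co.TE

open Pool.Agent.Lib.MP_688fd0_co

universe u v w

section defs

variable {G : Type u} [Group G] [Fintype G] [DecidableEq G] {c : Ctx G} {N : ℕ} (g : Gad c N)

/-- The subgroup generated by `B`; the cells are its left cosets. -/
def Ctx.H (c : Ctx G) : Subgroup G := Subgroup.closure (c.B : Set G)

/-- Options: a pair and two R-links. -/
abbrev Ctx.Op (c : Ctx G) : Type u :=
  (G × G) × (Fin (3 * c.k + 1) → G × G) × (Fin (3 * c.k + 1) → G × G)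

/-- `s` is a star map: `v` and `s v` are joined by a letter of `B`, at most two-to-one. -/
structure Gad.Star (s : G → G) : Prop where
  let' : ∀ v, ¬ g.W v → v⁻¹ * s v ∈ c.B
  two : ∀ w, Set.ncard {v | ¬ g.W v ∧ s v = w} ≤ 2

/-- The law `π` of the pairs of the pickers `κ` in a round of kind `τ` is admissible. -/
structure Gad.PiOK (τ : Bool) (s : G → G) {κ : Type v} [Fintype κ] (π : κ → G → G → ℝ)
    (π1 : ℝ) : Prop where
  nn : ∀ p x y, 0 ≤ π p x y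
  one : ∀ p, ∑ x, ∑ y, π p x y = 1
  supp : ∀ p x y, π p x y ≠ 0 →
    ¬ g.W x ∧ ¬ g.W y ∧ x ≠ y ∧ s x ≠ s y ∧ x⁻¹ * y ∈ Lt c.B c.C τ
  row : ∀ x, ∑ p, ∑ y, π p x y ≤ π1
  col : ∀ y, ∑ p, ∑ x, π p x y ≤ π1
  small : π1 ≤ if τ then 1 / c.X ^ 100000 else 1 / c.X ^ 990

/-- The outcome of a round: `o p` is the option of the picker `p`, `Vp` the touched vertices,
`Ep` the R-edges. -/
structure Gad.RndOK (m : ℕ) (τ : Bool) (s : G → G) (UE : G × G → Prop) {κ : Type v} [Fintype κ]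
    (π : κ → G → G → ℝ) {ι : Type w} (S : ι → Finset G) (o : κ → c.Op) (Vp : Finset G)
    (Ep : Finset (G × G)) : Prop where
  pi : ∀ p, π p (o p).1.1 (o p).1.2 ≠ 0
  l1 : ∀ p, g.res.Rl τ (o p).1.1 (o p).1.2 (o p).2.1 ≠ 0
  l2 : ∀ p, g.res.Rl τ (s (o p).1.1) (s (o p).1.2) (o p).2.2 ≠ 0
  d12 : ∀ p j j', (o p).2.1 j ≠ (o p).2.2 j'
  new : ∀ p j, ¬ UE ((o p).2.1 j) ∧ ¬ UE ((o p).2.2 j)
  dd : ∀ p q, p ≠ q → ∀ j j', (o p).2.1 j ≠ (o q).2.1 j' ∧ (o p).2.1 j ≠ (o q).2.2 j' ∧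
    (o p).2.2 j ≠ (o q).2.2 j'
  dv : ∀ p q, p ≠ q → Disjoint (touch4 s (o p).1) (touch4 s (o q).1)
  ep : ∀ p j, (o p).2.1 j ∈ Ep ∧ (o p).2.2 j ∈ Ep
  vp : ∀ p, touch4 s (o p).1 ⊆ Vp
  i1 : ∀ τ' x y, x ≠ y → c.adm τ' true 9 x y →
    TE.Pr (g.res.Rl τ' x y) (fun z => ∃ j, z j ∈ Ep) ≤ 1 / c.X ^ 150
  i2 : c.Light 4 (fun v => v ∈ Vp) (1 / c.X ^ 900)
  i3 : ∀ i, 1000 * c.k * (S i ∩ Vp).card ≤ (S i).card

end defs

/-- ISO1 (7.1): a cell cut in two large parts has many `B`-edges between the parts. -/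
def ISO1F_S : Prop :=
  ∀ (G : Type u) [Group G] [Fintype G] [DecidableEq G] (c : Ctx G) (N : ℕ) (g : Gad c N) (m : ℕ)
    (Un : G → Prop) (v0 : G) (S S1 : Finset G), 6 ≤ N → c.mOK m → c.Light 4 Un (1 / c.X ^ 50) →
    Disjoint S S1 →
    (∀ v, v ∈ S ∪ S1 ↔ v0⁻¹ * v ∈ c.H ∧ ¬ g.W v ∧ ¬ Un v) →
    m ≤ 16 * S.card → m ≤ 16 * S1.card →
    c.b * m / c.X ^ 3 ≤ ((S ×ˢ S1).filter (fun p : G × G => p.1⁻¹ * p.2 ∈ c.B)).card

open scoped Classical in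
/-- ISO2 (7.2): if `K` is a union of cells and not everything then many `C`-edges leave `K`. -/
def ISO2F_S : Prop :=
  ∀ (G : Type u) [Group G] [Fintype G] [DecidableEq G] (c : Ctx G) (N : ℕ) (g : Gad c N)
    (Un K : G → Prop), 6 ≤ N → c.Light 4 Un (1 / c.X ^ 50) →
    (∀ x y, ¬ g.W x → ¬ g.W y → x⁻¹ * y ∈ c.H → K x → K y) →
    (∃ x, ¬ g.W x ∧ K x) → (∃ y, ¬ g.W y ∧ ¬ K y) →
    c.b / c.X ^ 2 ≤ ((Finset.univ : Finset (G × G)).filter (fun p : G × G =>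
      (¬ g.W p.1 ∧ ¬ Un p.1 ∧ K p.1) ∧ (¬ g.W p.2 ∧ ¬ Un p.2 ∧ ¬ K p.2) ∧
        p.1⁻¹ * p.2 ∈ c.C)).card

/-- RND (7.3): one round. -/
def RNDF_S : Prop :=
  ∀ (G : Type u) [Group G] [Fintype G] [DecidableEq G] (c : Ctx G) (N : ℕ) (g : Gad c N) (m : ℕ)
    (τ : Bool) (s : G → G) (UE : G × G → Prop) (κ : Type u) [Fintype κ] [DecidableEq κ]
    (π : κ → G → G → ℝ) (π1 : ℝ) (ι : Type u) [Fintype ι] (S : ι → Finset G),
    6 ≤ N → c.mOK m → g.Star s →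
    (∀ τ' x y, x ≠ y → c.adm τ' true 9 x y →
      Pr (g.res.Rl τ' x y) (fun z => ∃ j, UE (z j)) ≤ 1 / c.X ^ 100) →
    Fintype.card κ ≤ Fintype.card G ^ 2 → Fintype.card ι ≤ Fintype.card G ^ 2 →
    (∀ i, m ≤ 8 * (S i).card) → g.PiOK τ s π π1 →
    ∃ (o : κ → c.Op) (Vp : Finset G) (Ep : Finset (G × G)), g.RndOK m τ s UE π S o Vp Ep

/-- END (8): the Hamiltonian cycle. -/
def ENDF_S : Prop :=
  ∀ (G : Type u) [Group G] [Fintype G] [DecidableEq G] (c : Ctx G),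
    IsHC (cay ((c.B ∪ c.C : Finset G) : Set G)) Set.univ ∅

end Pool.Agent.Lib.MP_688fd0_co.TF
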